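import Mathlib

set_option autoImplicit false

/-! Sums of inverse squares on a grid. -/

namespace Pool.Agent.Lib.MP_1e748d_nt.Sz

open Finset Real

lemma den_ge {u : ℝ} (hu : |u| ≤ π) : 2 / 5 * u ^ 2 ≤ 2 - 2 * Real.cos u := by
  have h := Real.cos_le_one_sub_mul_cos_sq hu
  have hp : π ^ 2 ≤ 10 := by nlinarith [Real.pi_lt_d2, Real.pi_pos]
  have h2 : 1 / 5 ≤ 2 / π ^ 2 := by
    rw [div_le_div_iff₀ (by norm_num) (by positivity)]; linarith
  nlinarith [sq_nonneg u]

lemma cos_add_le {a b : ℝ} (ha : a ∈ Set.Icc 0 π) (hb : b ∈ Set.Icc 0 π) :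
    Real.cos (a + b) ≤ Real.cos (a - b) := by
  rw [Real.cos_add, Real.cos_sub]
  have := mul_nonneg (Real.sin_nonneg_of_mem_Icc ha) (Real.sin_nonneg_of_mem_Icc hb)
  linarith

lemma tele_step {a δ : ℝ} (ha : 0 < a) (hδ : 0 < δ) (u : ℝ) :
    δ * (a / (a + |u| + δ) ^ 2) ≤ (u + δ) / (a + |u + δ|) - u / (a + |u|) := by
  have h0 := abs_nonneg u
  rcases le_total 0 u with h | h
  · rw [abs_of_nonneg h, abs_of_nonneg (by linarith : 0 ≤ u + δ)]
    have e : (u + δ) / (a + (u + δ)) - u / (a + u) = δ * (a / ((a + u + δ) * (a + u))) := by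
      field_simp; ring
    rw [e]
    refine mul_le_mul_of_nonneg_left (div_le_div_of_nonneg_left ha.le (by positivity) ?_) hδ.le
    nlinarith
  · rcases le_total 0 (u + δ) with h' | h'
    · rw [abs_of_nonpos h, abs_of_nonneg h']
      have p : 0 < a + -u + δ := by linarith
      have h1 : (u + δ) / (a + -u + δ) ≤ (u + δ) / (a + (u + δ)) :=
        div_le_div_of_nonneg_left h' (by linarith) (by linarith)
      have h2 : -u / (a + -u + δ) ≤ -u / (a + -u) :=
        div_le_div_of_nonneg_left (by linarith) (by linarith) (by linarith)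
      have h3 : (u + δ) / (a + -u + δ) + -u / (a + -u + δ) = δ * (1 / (a + -u + δ)) := by
        field_simp; ring
      have h4 : a / (a + -u + δ) ^ 2 ≤ 1 / (a + -u + δ) := by
        rw [div_le_div_iff₀ (by positivity) p]; nlinarith
      rw [neg_div] at h2
      rw [neg_div] at h2 h3
      nlinarith
    · rw [abs_of_nonpos h, abs_of_nonpos h']
      have p1 : 0 < a + -(u + δ) := by linarith
      have p2 : 0 < a + -u := by linarith
      have e : (u + δ) / (a + -(u + δ)) - u / (a + -u) =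
          δ * (a / ((a + -(u + δ)) * (a + -u))) := by
        field_simp; ring
      rw [e]
      refine mul_le_mul_of_nonneg_left (div_le_div_of_nonneg_left ha.le (by positivity) ?_) hδ.le
      nlinarith

lemma tele {a δ : ℝ} (ha : 0 < a) (hδ : 0 < δ) (v : ℝ) (S : Finset ℕ) :
    δ * ∑ l ∈ S, a / (a + |v + l * δ| + δ) ^ 2 ≤ 2 := by
  obtain ⟨M, hM⟩ := S.exists_nat_subset_range
  have h1 : ∑ l ∈ S, a / (a + |v + l * δ| + δ) ^ 2 ≤ ∑ l ∈ range M, a / (a + |v + l * δ| + δ) ^ 2 :=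
    sum_le_sum_of_subset_of_nonneg hM fun _ _ _ => by positivity
  have h2 := sum_range_sub (fun l : ℕ => (v + l * δ) / (a + |v + l * δ|)) M
  have h3 : ∀ u : ℝ, |u / (a + |u|)| ≤ 1 := fun u => by
    have := abs_nonneg u
    rw [abs_div, abs_of_pos (by linarith : 0 < a + |u|), div_le_one (by linarith)]
    linarith
  have h4 : δ * ∑ l ∈ range M, a / (a + |v + l * δ| + δ) ^ 2 ≤
      ∑ l ∈ range M, ((v + (l + 1 : ℕ) * δ) / (a + |v + (l + 1 : ℕ) * δ|) -
        (v + l * δ) / (a + |v + l * δ|)) := by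
    rw [mul_sum]
    refine sum_le_sum fun l _ => ?_
    have e : v + ((l + 1 : ℕ) : ℝ) * δ = v + l * δ + δ := by push_cast; ring
    rw [e]
    exact tele_step ha hδ _
  rw [h2] at h4
  have h5 := abs_le.mp (h3 (v + M * δ))
  have h6 := abs_le.mp (h3 (v + (0 : ℕ) * δ))
  have := mul_le_mul_of_nonneg_left h1 hδ.le
  linarith [h5.2, h6.1]

lemma far_sum {h δ : ℝ} (hδ : 0 < δ) (hh : δ ≤ h) (θ : ℝ) (S : Finset ℕ)
    (hS : ∀ l ∈ S, h ≤ |θ - l * δ|) : ∑ l ∈ S, 1 / (θ - l * δ) ^ 2 ≤ 18 / (h * δ) := by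
  have h0 : 0 < h := hδ.trans_le hh
  have h1 := tele h0 hδ (-θ) S
  have h2 : ∑ l ∈ S, 1 / (θ - l * δ) ^ 2 ≤ 9 / h * ∑ l ∈ S, h / (h + |-θ + l * δ| + δ) ^ 2 := by
    rw [mul_sum]
    refine sum_le_sum fun l hl => ?_
    have h3 := hS l hl
    have e : |-θ + l * δ| = |θ - l * δ| := by rw [← abs_neg]; congr 1; ring
    rw [e, ← sq_abs (θ - l * δ)]
    generalize |θ - l * δ| = u at h3
    have hu : 0 < u := h0.trans_le h3
    have e2 : 9 / h * (h / (h + u + δ) ^ 2) = 9 / (h + u + δ) ^ 2 := by field_simp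
    rw [e2, div_le_div_iff₀ (by positivity) (by positivity)]
    nlinarith
  refine h2.trans ?_
  rw [div_mul_eq_mul_div, div_le_div_iff₀ h0 (by positivity)]
  nlinarith

lemma near_card {h δ : ℝ} (hδ : 0 < δ) (hh : δ ≤ h) (θ : ℝ) (S : Finset ℕ)
    (hS : ∀ l ∈ S, |θ - l * δ| ≤ h) : S.card * δ ≤ 18 * h := by
  have h0 : 0 < h := hδ.trans_le hh
  have h1 := tele h0 hδ (-θ) S
  have h2 : S.card * (1 / (9 * h)) ≤ ∑ l ∈ S, h / (h + |-θ + l * δ| + δ) ^ 2 := by
    rw [← nsmul_eq_mul]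
    refine card_nsmul_le_sum _ _ _ fun l hl => ?_
    have h3 := hS l hl
    have e : |-θ + l * δ| = |θ - l * δ| := by rw [← abs_neg]; congr 1; ring
    rw [e]
    have h4 := abs_nonneg (θ - l * δ)
    generalize |θ - l * δ| = u at h3 h4
    rw [div_le_div_iff₀ (by positivity) (by positivity)]
    nlinarith
  have h3 : δ * (S.card * (1 / (9 * h))) ≤ 2 := (mul_le_mul_of_nonneg_left h2 hδ.le).trans h1
  have e : δ * (S.card * (1 / (9 * h))) = S.card * δ / (9 * h) := by field_simp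
  rw [e, div_le_iff₀ (by positivity)] at h3
  linarith

end Pool.Agent.Lib.MP_1e748d_nt.Sz
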