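import Pool.Agent.Lib.MP_1e748d_nt.Newton
import Pool.Agent.Lib.MP_1e748d_nt.Sz.Ker

set_option autoImplicit false

/-! A monic polynomial which is small away from a set of grid angles. -/

namespace Pool.Agent.Lib.MP_1e748d_nt.Sz

open Finset Real Polynomial

lemma nsq (a b r : ℝ) :
    ‖Complex.exp (a * Complex.I) - r * Complex.exp (b * Complex.I)‖ ^ 2 =
      (1 - r) ^ 2 + r * (2 - 2 * Real.cos (a - b)) := by
  rw [Complex.sq_norm, Complex.normSq_apply, Real.cos_sub]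
  simp only [Complex.sub_re, Complex.re_ofReal_mul, Complex.exp_ofReal_mul_I_re,
    Complex.sub_im, Complex.im_ofReal_mul, Complex.exp_ofReal_mul_I_im]
  linear_combination Real.sin_sq_add_cos_sq a + r ^ 2 * Real.sin_sq_add_cos_sq b

lemma circ {n : ℕ} (hn : 0 < n) (a : ℝ) :
    ∏ j ∈ range n, (2 - 2 * Real.cos (a - j * (2 * π / n))) ≤ 4 := by
  have h := X_pow_sub_C_eq_prod (Complex.isPrimitiveRoot_exp n hn.ne') hn (one_pow n)
  have h2 := congrArg (fun p => ‖eval (Complex.exp (a * Complex.I)) p‖ ^ 2) h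
  simp only [eval_prod, eval_sub, eval_pow, eval_X, eval_C, norm_prod, ← prod_pow] at h2
  have e : ∀ j : ℕ, ‖Complex.exp (a * Complex.I) - Complex.exp (2 * π * Complex.I / n) ^ j * 1‖ ^ 2 =
      2 - 2 * Real.cos (a - j * (2 * π / n)) := fun j => by
    have h3 := nsq a (j * (2 * π / n)) 1
    have e2 : Complex.exp (2 * π * Complex.I / n) ^ j * 1 =
        ((1 : ℝ) : ℂ) * Complex.exp ((j * (2 * π / n) : ℝ) * Complex.I) := by
      rw [← Complex.exp_nat_mul]; push_cast; ring_nf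
    rw [e2, h3]; ring
  simp only [e] at h2
  rw [← h2]
  have h4 : ‖Complex.exp (a * Complex.I) ^ n - 1‖ ≤ 2 := by
    refine (norm_sub_le _ _).trans ?_
    rw [norm_pow, Complex.norm_exp_ofReal_mul_I]; norm_num
  nlinarith [norm_nonneg (Complex.exp (a * Complex.I) ^ n - 1)]

/-- The polynomial with the grid roots of index in `S` moved to radius `1 - t`. -/
noncomputable def gp (n : ℕ) (S : Finset ℕ) (t δ : ℝ) : ℂ[X] :=
  ∏ j ∈ range n, (X - C (((if j ∈ S then 1 - t else 1 : ℝ) : ℂ) *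
    Complex.exp ((j * δ : ℝ) * Complex.I)))

lemma gp_le {n : ℕ} {S : Finset ℕ} (hS : S ⊆ range n) {t h δ : ℝ}
    (ht1 : t ≤ 1) (hδ : 0 < δ) (hh : δ ≤ h) (a θ : ℝ)
    (hc : ∏ j ∈ range n, (2 - 2 * Real.cos (a - j * δ)) ≤ 4) (h1 : ∀ j ∈ S, h ≤ |θ - j * δ|)
    (h2 : ∀ j ∈ S, 2 / 5 * (θ - j * δ) ^ 2 ≤ 2 - 2 * Real.cos (a - j * δ)) :
    ‖eval (Complex.exp (a * Complex.I)) (gp n S t δ)‖ ≤
      2 * Real.exp ((-t * S.card + 45 * t ^ 2 / (h * δ)) / 2) := by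
  have hf := far_sum hδ hh θ S h1
  have h0 : 0 < h := hδ.trans_le hh
  have hD : ∀ j : ℕ, 0 ≤ 2 - 2 * Real.cos (a - j * δ) := fun j => by
    linarith [Real.cos_le_one (a - j * δ)]
  have key : ‖eval (Complex.exp (a * Complex.I)) (gp n S t δ)‖ ^ 2 ≤
      ∏ j ∈ range n, ((2 - 2 * Real.cos (a - j * δ)) *
        Real.exp (if j ∈ S then -t + 5 / 2 * t ^ 2 * (1 / (θ - j * δ) ^ 2) else 0)) := by
    simp only [gp, eval_prod, eval_sub, eval_X, eval_C, norm_prod, ← prod_pow, nsq]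
    refine prod_le_prod (fun j _ => ?_) fun j _ => ?_
    · have := hD j
      split_ifs
      · have : 0 ≤ 1 - t := by linarith
        positivity
      · positivity
    · split_ifs with hj
      · have h3 := h2 j hj
        have h4 : 0 < (θ - j * δ) ^ 2 := by
          rw [← sq_abs]; have := h0.trans_le (h1 j hj); positivity
        have h5 := Real.add_one_le_exp (-t + 5 / 2 * t ^ 2 * (1 / (θ - j * δ) ^ 2))
        refine le_trans ?_ (mul_le_mul_of_nonneg_left h5 (hD j))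
        have h6 : t ^ 2 ≤ (2 - 2 * Real.cos (a - j * δ)) *
            (5 / 2 * t ^ 2 * (1 / (θ - j * δ) ^ 2)) := by
          refine le_trans (le_of_eq ?_) (mul_le_mul_of_nonneg_right h3 (by positivity))
          generalize (θ - j * δ) ^ 2 = u at h4
          field_simp
        nlinarith
      · simp
  rw [prod_mul_distrib, ← Real.exp_sum, ← sum_filter, filter_mem_eq_inter, inter_eq_right.mpr hS,
    sum_add_distrib, ← mul_sum, sum_const, nsmul_eq_mul] at key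
  have h7 : 5 / 2 * t ^ 2 * ∑ j ∈ S, 1 / (θ - j * δ) ^ 2 ≤ 45 * t ^ 2 / (h * δ) := by
    refine (mul_le_mul_of_nonneg_left hf (by positivity)).trans (le_of_eq ?_)
    field_simp; ring
  refine le_of_sq_le_sq (key.trans ?_) (by positivity)
  rw [mul_pow, ← Real.exp_nat_mul]
  refine mul_le_mul (by linarith) (Real.exp_le_exp.mpr ?_) (Real.exp_pos _).le (by norm_num)
  push_cast
  linarith

lemma qpoly (n : ℕ) (G : ℂ[X]) (hG : G.Monic) (hn : G.natDegree = n) (ρ : ℝ) :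
    ∃ q : ℝ[X], q.Monic ∧ q.natDegree = n + 1 ∧ ∀ θ : ℝ, |q.eval (2 * ρ * Real.cos θ)| ≤
      |ρ| ^ (n + 1) * (‖eval (Complex.exp (θ * Complex.I)) G‖ +
        ‖eval (Complex.exp ((-θ : ℝ) * Complex.I)) G‖) := by
  choose Q R hQ hR hd e1 e2 using cheb 0 ρ
  have hlt : (∑ k ∈ range n, C ((G.coeff k).re * ρ ^ (n - k)) * R k).degree < (R n).degree := by
    rw [degree_eq_natDegree (hR n).ne_zero, hd]
    refine (degree_sum_le _ _).trans_lt ((Finset.sup_lt_iff (WithBot.bot_lt_coe _)).mpr ?_)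
    intro k hk
    refine (degree_mul_le _ _).trans_lt ((add_le_add degree_C_le le_rfl).trans_lt ?_)
    rw [zero_add, degree_eq_natDegree (hR k).ne_zero, hd]
    exact_mod_cast Nat.succ_lt_succ (mem_range.mp hk)
  refine ⟨_, (hR n).add_of_right hlt, ?_, fun θ => ?_⟩
  · rw [natDegree_eq_of_degree_eq (degree_add_eq_right_of_degree_lt hlt), hd]
  have ev : ∀ a : ℝ, Complex.exp (a * Complex.I) * eval (Complex.exp (a * Complex.I)) G =
      ∑ k ∈ range (n + 1), G.coeff k * Complex.exp ((((k + 1 : ℕ) : ℝ) * a : ℝ) * Complex.I) := by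
    intro a
    rw [eval_eq_sum_range, hn, mul_sum]
    refine sum_congr rfl fun k _ => ?_
    rw [← Complex.exp_nat_mul, mul_left_comm, ← Complex.exp_add]
    push_cast
    ring_nf
  have hc : G.coeff n = 1 := hn ▸ hG.coeff_natDegree
  have e : eval (2 * ρ * Real.cos θ) (∑ k ∈ range n, C ((G.coeff k).re * ρ ^ (n - k)) * R k + R n) =
      ρ ^ (n + 1) * (Complex.exp (θ * Complex.I) * eval (Complex.exp (θ * Complex.I)) G +
        Complex.exp ((-θ : ℝ) * Complex.I) * eval (Complex.exp ((-θ : ℝ) * Complex.I)) G).re := by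
    have e3 : ∀ k, eval (2 * ρ * Real.cos θ) (R k) =
        2 * ρ ^ (k + 1) * Real.cos (((k + 1 : ℕ) : ℝ) * θ) := fun k => by
      rw [← e2 k θ, zero_add]
    rw [ev, ev, ← sum_add_distrib, Complex.re_sum, mul_sum, sum_range_succ, eval_add,
      eval_finsetSum, e3]
    have e4 : ∀ k : ℕ, (G.coeff k * Complex.exp ((((k + 1 : ℕ) : ℝ) * θ : ℝ) * Complex.I) +
        G.coeff k * Complex.exp ((((k + 1 : ℕ) : ℝ) * -θ : ℝ) * Complex.I)).re =
        (G.coeff k).re * (2 * Real.cos (((k + 1 : ℕ) : ℝ) * θ)) := fun k => by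
      simp only [Complex.add_re, Complex.mul_re, Complex.exp_ofReal_mul_I_re,
        Complex.exp_ofReal_mul_I_im, mul_neg, Real.cos_neg, Real.sin_neg]
      ring
    simp only [e4]
    rw [hc, Complex.one_re]
    congr 1
    · refine sum_congr rfl fun k hk => ?_
      obtain ⟨i, rfl⟩ := Nat.exists_eq_add_of_lt (mem_range.mp hk)
      rw [eval_mul, eval_C, e3, show k + i + 1 - k = i + 1 by omega]
      ring
    · ring
  rw [e, abs_mul, abs_pow]
  refine mul_le_mul_of_nonneg_left ((Complex.abs_re_le_norm _).trans ((norm_add_le _ _).trans ?_))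
    (by positivity)
  rw [norm_mul, norm_mul, Complex.norm_exp_ofReal_mul_I, Complex.norm_exp_ofReal_mul_I, one_mul,
    one_mul]

lemma grid_small {m : ℕ} (hm : 0 < m) {ρ : ℝ} (h1 : 1 ≤ ρ) (h2 : ρ ≤ 1 + 1 / (3 * 10 ^ 7 * m))
    {S : Finset ℕ} (hS : S ⊆ Ico (2 * (10 ^ 7 * m)) (3 * (10 ^ 7 * m)))
    (hc : 1 / 8 ≤ S.card * (π / (6 * 10 ^ 7 * m))) :
    ∃ q : ℝ[X], q.Monic ∧ 0 < q.natDegree ∧ ∀ θ ∈ Set.Icc 0 π,
      (∀ j ∈ S, (1 / (72 * m) : ℝ) ≤ |θ - j * (π / (6 * 10 ^ 7 * m))|) →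
      |q.eval (2 * ρ * Real.cos θ)| ≤ 1 / 2 := by
  have hm' : (1 : ℝ) ≤ m := by exact_mod_cast hm
  have hp := Real.pi_pos
  have hp2 := Real.pi_lt_d2
  have hn : 0 < 12 * (10 ^ 7 * m) := by positivity
  have eδ : 2 * π / ((12 * (10 ^ 7 * m) : ℕ) : ℝ) = π / (6 * 10 ^ 7 * m) := by
    push_cast; field_simp; ring
  have hcirc := circ hn
  rw [eδ] at hcirc
  obtain ⟨δ, hδ⟩ : ∃ δ : ℝ, δ = π / (6 * 10 ^ 7 * m) := ⟨_, rfl⟩
  rw [← hδ] at hc hcirc ⊢
  have hδ0 : 0 < δ := by rw [hδ]; positivity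
  have hδm : δ * (6 * 10 ^ 7 * m) = π := by rw [hδ]; field_simp
  obtain ⟨h, hh⟩ : ∃ h : ℝ, h = 1 / (72 * m) := ⟨_, rfl⟩
  rw [← hh]
  have hh0 : 0 < h := by rw [hh]; positivity
  have hhm : h * (72 * m) = 1 := by rw [hh]; field_simp
  have hδh : δ ≤ h := by
    refine le_of_mul_le_mul_right ?_ (by positivity : (0 : ℝ) < 72 * m)
    nlinarith
  have hmon : (gp (12 * (10 ^ 7 * m)) S (h / 720) δ).Monic :=
    monic_prod_of_monic _ _ fun _ _ => monic_X_sub_C _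
  have hdeg : (gp (12 * (10 ^ 7 * m)) S (h / 720) δ).natDegree = 12 * (10 ^ 7 * m) := by
    rw [gp, natDegree_prod_of_monic _ _ fun _ _ => monic_X_sub_C _]
    simp only [natDegree_X_sub_C, sum_const, card_range, smul_eq_mul, mul_one]
  obtain ⟨q, hq, hd, hb⟩ := qpoly _ _ hmon hdeg ρ
  refine ⟨q, hq, by omega, fun θ hθ hj => (hb θ).trans ?_⟩
  have hS' : S ⊆ range (12 * (10 ^ 7 * m)) := fun j hj => by
    have := mem_Ico.mp (hS hj)
    rw [mem_range]; omega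
  have hin : ∀ j ∈ S, j * δ ∈ Set.Icc 0 π := fun j hj => by
    have h3 : (j : ℝ) ≤ 3 * (10 ^ 7 * m) := by exact_mod_cast (mem_Ico.mp (hS hj)).2.le
    exact ⟨by positivity, by nlinarith⟩
  have hden : ∀ j ∈ S, 2 / 5 * (θ - j * δ) ^ 2 ≤ 2 - 2 * Real.cos (θ - j * δ) := fun j hj =>
    den_ge (abs_le.mpr ⟨by linarith [hθ.1, (hin j hj).2], by linarith [hθ.2, (hin j hj).1]⟩)
  have ht : h / 720 ≤ 1 := by nlinarith
  have g1 := gp_le hS' ht hδ0 hδh θ θ (hcirc θ) hj hden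
  have g2 := gp_le hS' ht hδ0 hδh (-θ) θ (hcirc (-θ)) hj fun j hj => by
    have e : -θ - j * δ = -(θ + j * δ) := by ring
    rw [e, Real.cos_neg]
    linarith [hden j hj, cos_add_le hθ (hin j hj)]
  have e1 : (-(h / 720) * S.card + 45 * (h / 720) ^ 2 / (h * δ)) / 2 ≤ -(23 / 2 - 1 / 10) := by
    have e2 : 45 * (h / 720) ^ 2 / (h * δ) = h / 720 * (1 / (16 * δ)) := by field_simp; ring
    have e3 : 1 / (8 * δ) ≤ S.card := by rw [div_le_iff₀ (by positivity)]; linarith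
    have e4 : 1 / (8 * δ) = 2 * (1 / (16 * δ)) := by field_simp; ring
    have e5 : 23 - 1 / 5 ≤ h / 720 * (1 / (16 * δ)) := by
      rw [mul_one_div, le_div_iff₀ (by positivity)]
      refine le_of_mul_le_mul_right ?_ (by positivity : (0 : ℝ) < 72 * m)
      nlinarith
    rw [e2]
    nlinarith
  have e6 : |ρ| ^ (12 * (10 ^ 7 * m) + 1) ≤ Real.exp (4 + 1 / 10) := by
    rw [abs_of_pos (by linarith)]
    have h3 : ρ ≤ Real.exp (1 / (3 * 10 ^ 7 * m)) := by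
      linarith [Real.add_one_le_exp (1 / (3 * 10 ^ 7 * (m : ℝ)))]
    refine (pow_le_pow_left₀ (by linarith) h3 _).trans ?_
    rw [← Real.exp_nat_mul, Real.exp_le_exp, mul_one_div, div_le_iff₀ (by positivity)]
    push_cast
    nlinarith
  have e7 := Real.exp_le_exp.mpr e1
  have e8 : Real.exp (4 + 1 / 10) * Real.exp (-(23 / 2 - 1 / 10)) ≤ 1 / 8 := by
    rw [← Real.exp_add, show (4 + 1 / 10 + -(23 / 2 - 1 / 10) : ℝ) = -(73 / 10) by norm_num,
      Real.exp_neg, inv_le_comm₀ (Real.exp_pos _) (by norm_num)]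
    linarith [Real.add_one_le_exp (73 / 10 : ℝ)]
  calc _ ≤ Real.exp (4 + 1 / 10) * (4 * Real.exp (-(23 / 2 - 1 / 10))) :=
        mul_le_mul e6 (by linarith) (by positivity) (Real.exp_pos _).le
    _ ≤ 1 / 2 := by linarith

theorem small {m : ℕ} {ρ : ℝ} (h1 : 1 ≤ ρ) (h2 : ρ ≤ 1 + 1 / (3 * 10 ^ 7 * m)) (F : ℝ[X])
    (hF : F ≠ 0) (hd : F.natDegree + 2 ≤ m) :
    ∃ q : ℝ[X], q.Monic ∧ 0 < q.natDegree ∧
      ((∀ x, |x| ≤ 2 * ρ → F.eval x ≤ 0 → |q.eval x| ≤ 1 / 2) ∨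
        ∀ x, |x| ≤ 2 * ρ → ((X ^ 2 - C 4) * F).eval x ≤ 0 → |q.eval x| ≤ 1 / 2) := by
  classical
  have hm : 0 < m := by omega
  have hm' : (1 : ℝ) ≤ m := by exact_mod_cast hm
  have hp := Real.pi_gt_three
  have hp2 := Real.pi_lt_d2
  have gs := @grid_small m hm ρ h1 h2
  obtain ⟨δ, hδ⟩ : ∃ δ : ℝ, δ = π / (6 * 10 ^ 7 * m) := ⟨_, rfl⟩
  obtain ⟨h, hh⟩ : ∃ h : ℝ, h = 1 / (72 * m) := ⟨_, rfl⟩
  rw [← hδ, ← hh] at gs
  have hδ0 : 0 < δ := by rw [hδ]; positivity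
  have hδm : δ * (6 * 10 ^ 7 * m) = π := by rw [hδ]; field_simp
  have hh0 : 0 < h := by rw [hh]; positivity
  have hhm : h * (72 * m) = 1 := by rw [hh]; field_simp
  have hδh : δ ≤ h := by
    refine le_of_mul_le_mul_right ?_ (by positivity : (0 : ℝ) < 72 * m)
    nlinarith
  have hρ : ρ < 2 := by
    have : 1 / (3 * 10 ^ 7 * (m : ℝ)) < 1 := by rw [div_lt_one (by positivity)]; nlinarith
    linarith
  set G := (X ^ 2 - C 4) * F with hG
  have hq : (X ^ 2 - C 4 : ℝ[X]).Monic := monic_X_pow_sub_C _ two_ne_zero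
  have hG0 : G ≠ 0 := mul_ne_zero hq.ne_zero hF
  have hR : G.roots.toFinset.card ≤ m := by
    refine (Multiset.toFinset_card_le _).trans ((card_roots' G).trans ?_)
    rw [hG, natDegree_mul hq.ne_zero hF, natDegree_X_pow_sub_C]; omega
  set J := Ico (2 * (10 ^ 7 * m)) (3 * (10 ^ 7 * m)) with hJ
  set Bad := G.roots.toFinset.biUnion fun w =>
    J.filter fun j : ℕ => |Real.arccos (w / (2 * ρ)) - j * δ| ≤ h with hBad
  have hB : Bad.card * δ ≤ 1 / 4 := by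
    have h3 : (Bad.card : ℝ) ≤ ∑ w ∈ G.roots.toFinset,
        ((J.filter fun j : ℕ => |Real.arccos (w / (2 * ρ)) - j * δ| ≤ h).card : ℝ) := by
      exact_mod_cast card_biUnion_le
    refine (mul_le_mul_of_nonneg_right h3 hδ0.le).trans ?_
    rw [sum_mul]
    refine (sum_le_card_nsmul _ _ (18 * h) fun w _ =>
      near_card hδ0 hδh _ _ fun l hl => (mem_filter.mp hl).2).trans ?_
    have h4 : (G.roots.toFinset.card : ℝ) ≤ m := by exact_mod_cast hR
    rw [nsmul_eq_mul]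
    nlinarith
  have hin : ∀ j ∈ J, (0 : ℝ) ≤ j * δ ∧ π / 3 ≤ j * δ ∧ j * δ ≤ π / 2 := fun j hj => by
    have h3 : (j : ℝ) ≤ 3 * (10 ^ 7 * m) := by exact_mod_cast (mem_Ico.mp hj).2.le
    have h4 : 2 * (10 ^ 7 * m) ≤ (j : ℝ) := by exact_mod_cast (mem_Ico.mp hj).1
    exact ⟨by positivity, by nlinarith, by nlinarith⟩
  have hroot : ∀ j ∈ J \ Bad, ∀ φ ∈ Set.Icc 0 π, |φ - j * δ| ≤ h →
      G.eval (2 * ρ * Real.cos φ) ≠ 0 := fun j hj φ hφ hl h0 => by
    refine (mem_sdiff.mp hj).2 (mem_biUnion.mpr ⟨_, Multiset.mem_toFinset.mpr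
      ((mem_roots hG0).mpr h0), mem_filter.mpr ⟨(mem_sdiff.mp hj).1, ?_⟩⟩)
    rwa [mul_div_cancel_left₀ _ (by linarith), Real.arccos_cos hφ.1 hφ.2]
  have key : ∀ p : ℝ[X], p ∣ G →
      1 / 8 ≤ ((J \ Bad).filter fun j : ℕ => 0 < p.eval (2 * ρ * Real.cos (j * δ))).card * δ →
      ∃ q : ℝ[X], q.Monic ∧ 0 < q.natDegree ∧
        ∀ x, |x| ≤ 2 * ρ → p.eval x ≤ 0 → |q.eval x| ≤ 1 / 2 := fun p hpG hc => by
    obtain ⟨q, q1, q2, q3⟩ := gs ((filter_subset _ _).trans sdiff_subset) hc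
    refine ⟨q, q1, q2, fun x hx hx0 => ?_⟩
    have hx' : |x / (2 * ρ)| ≤ 1 := by
      rwa [abs_div, abs_of_pos (by linarith : 0 < 2 * ρ), div_le_one (by linarith)]
    have ex : 2 * ρ * Real.cos (Real.arccos (x / (2 * ρ))) = x := by
      rw [Real.cos_arccos (abs_le.mp hx').1 (abs_le.mp hx').2, mul_div_cancel₀ _ (by linarith)]
    have hθ : Real.arccos (x / (2 * ρ)) ∈ Set.Icc 0 π := ⟨Real.arccos_nonneg _, Real.arccos_le_pi _⟩
    generalize Real.arccos (x / (2 * ρ)) = θ at ex hθ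
    subst ex
    refine q3 θ hθ fun j hj => le_of_not_gt fun hl => ?_
    obtain ⟨hj1, hj2⟩ := mem_filter.mp hj
    obtain ⟨i1, -, i3⟩ := hin j (mem_sdiff.mp hj1).1
    have hcont : ContinuousOn (fun φ : ℝ => p.eval (2 * ρ * Real.cos φ)) (Set.uIcc θ (j * δ)) :=
      (p.continuous.comp (by fun_prop)).continuousOn
    obtain ⟨φ, hφ, h0⟩ := intermediate_value_uIcc hcont
      (Set.mem_uIcc.mpr (Or.inl ⟨hx0, hj2.le⟩))
    refine hroot j hj1 φ (Set.uIcc_subset_Icc hθ ⟨i1, by linarith⟩ hφ)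
      ((Set.abs_sub_right_of_mem_uIcc hφ).trans' ?_ |>.trans ?_) (eval_eq_zero_of_dvd_of_eval_eq_zero hpG h0)
    · rw [abs_sub_comm]
    · rw [abs_sub_comm]; exact hl.le
  have hcov : J \ Bad ⊆ ((J \ Bad).filter fun j : ℕ => 0 < F.eval (2 * ρ * Real.cos (j * δ))) ∪
      (J \ Bad).filter fun j : ℕ => 0 < G.eval (2 * ρ * Real.cos (j * δ)) := fun j hj => by
    obtain ⟨i1, i2, i3⟩ := hin j (mem_sdiff.mp hj).1
    have h3 := hroot j hj _ ⟨i1, by linarith⟩ (by simpa using hh0.le)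
    have c1 : 0 ≤ Real.cos (j * δ) := Real.cos_nonneg_of_mem_Icc ⟨by linarith, i3⟩
    have c2 : Real.cos (j * δ) ≤ 1 / 2 := by
      rw [← Real.cos_pi_div_three]
      exact Real.cos_le_cos_of_nonneg_of_le_pi (by linarith) (by linarith) i2
    rw [mem_union, mem_filter, mem_filter]
    by_cases h4 : 0 < F.eval (2 * ρ * Real.cos (j * δ))
    · exact Or.inl ⟨hj, h4⟩
    refine Or.inr ⟨hj, lt_of_le_of_ne ?_ h3.symm⟩
    rw [hG, eval_mul, eval_sub, eval_pow, eval_X, eval_C]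
    have c3 : 2 * ρ * Real.cos (j * δ) ≤ 2 := by nlinarith
    have c4 : 0 ≤ 2 * ρ * Real.cos (j * δ) := by positivity
    exact mul_nonneg_of_nonpos_of_nonpos (by nlinarith) (not_lt.mp h4)
  have hcard : (10 ^ 7 * m : ℝ) ≤ Bad.card + (((J \ Bad).filter fun j : ℕ =>
      0 < F.eval (2 * ρ * Real.cos (j * δ))).card + ((J \ Bad).filter fun j : ℕ =>
      0 < G.eval (2 * ρ * Real.cos (j * δ))).card) := by
    have h3 := (card_le_card hcov).trans (card_union_le _ _)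
    have h4 := le_card_sdiff Bad J
    rw [hJ, Nat.card_Ico, ← hJ] at h4
    exact_mod_cast (by omega : 10 ^ 7 * m ≤ _)
  have h5 := mul_le_mul_of_nonneg_right hcard hδ0.le
  by_cases h6 : 1 / 8 ≤ ((J \ Bad).filter fun j : ℕ =>
      0 < F.eval (2 * ρ * Real.cos (j * δ))).card * δ
  · obtain ⟨q, q1, q2, q3⟩ := key F (Dvd.intro_left _ rfl) h6
    exact ⟨q, q1, q2, Or.inl q3⟩
  · obtain ⟨q, q1, q2, q3⟩ := key G dvd_rfl (by nlinarith)
    exact ⟨q, q1, q2, Or.inr q3⟩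

end Pool.Agent.Lib.MP_1e748d_nt.Sz
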