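import Pool.Agent.Lib.MP_1e748d_nt.Sz.Fun

set_option autoImplicit false

/-! The congruence modulo four for the map `x ^ 2 - 2` and the two integral square roots. -/

namespace Pool.Agent.Lib.MP_1e748d_nt.Sz

open Polynomial

lemma evod (P : ℤ[X]) : ∃ E O : ℤ[X], P = E.comp (X ^ 2 - 2) + X * O.comp (X ^ 2 - 2) := by
  induction P using Polynomial.induction_on with
  | C a => exact ⟨C a, 0, by simp⟩
  | add p q hp hq =>
    obtain ⟨E, O, rfl⟩ := hp
    obtain ⟨E', O', rfl⟩ := hq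
    exact ⟨E + E', O + O', by simp only [add_comp]; ring⟩
  | monomial n a h =>
    obtain ⟨E, O, h⟩ := h
    refine ⟨(X + 2) * O, E, ?_⟩
    rw [pow_succ, ← mul_assoc, h]
    simp only [add_comp, mul_comp, X_comp, ofNat_comp, Nat.cast_ofNat]; ring

lemma frob (E : ℤ[X]) : ∃ D : ℤ[X], E ^ 2 = E.comp (X ^ 2 - 2) + 2 * D := by
  induction E using Polynomial.induction_on with
  | C a =>
    obtain ⟨k, hk⟩ := Int.even_mul_pred_self a
    refine ⟨C k, ?_⟩
    have := congrArg (C (R := ℤ)) hk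
    rw [C_mul, C_sub, C_add, C_1] at this
    rw [C_comp]; linear_combination this
  | add p q hp hq =>
    obtain ⟨D, hD⟩ := hp
    obtain ⟨D', hD'⟩ := hq
    exact ⟨D + D' + p * q, by rw [add_comp]; linear_combination hD + hD'⟩
  | monomial n a h =>
    obtain ⟨D, h⟩ := h
    refine ⟨(C a * X ^ n).comp (X ^ 2 - 2) + D * X ^ 2, ?_⟩
    rw [pow_succ X n, ← mul_assoc, mul_comp _ X, X_comp]
    linear_combination X ^ 2 * h

lemma graeffe (P : ℤ[X]) : ∃ G₁ G₂ H : ℤ[X], G₁.comp (X ^ 2 - 2) = P * P.comp (-X) ∧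
    G₂.comp (X ^ 2 - 2) = G₁ * G₁.comp (-X) ∧ G₂ = G₁ + 4 * H := by
  have step : ∀ E O : ℤ[X], (E ^ 2 - (X + 2) * O ^ 2).comp (X ^ 2 - 2) =
      (E.comp (X ^ 2 - 2) + X * O.comp (X ^ 2 - 2)) *
        (E.comp (X ^ 2 - 2) + X * O.comp (X ^ 2 - 2)).comp (-X) := fun E O => by
    simp only [add_comp, mul_comp, X_comp, ofNat_comp, Nat.cast_ofNat, sub_comp, pow_comp,
      comp_assoc, neg_sq]
    ring
  obtain ⟨E, O, rfl⟩ := evod P
  obtain ⟨D, hD⟩ := frob E
  obtain ⟨D', hD'⟩ := frob O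
  obtain ⟨U, V, h⟩ := evod (D - X * D' - (X + 1) * O ^ 2 + X * O ^ 2 - X * O.comp (X ^ 2 - 2))
  refine ⟨_, (E + 2 * U) ^ 2 - (X + 2) * (O + 2 * V) ^ 2,
    E * U + U ^ 2 - (X + 2) * (O * V + V ^ 2), step E O, ?_, by ring⟩
  rw [step, show (E + 2 * U).comp (X ^ 2 - 2) + X * (O + 2 * V).comp (X ^ 2 - 2) =
    E ^ 2 - (X + 2) * O ^ 2 by
      simp only [add_comp, mul_comp, ofNat_comp, Nat.cast_ofNat]
      linear_combination -hD + X * hD' - 2 * h]

lemma step_roots {P G : ℤ[X]} (h : G.comp (X ^ 2 - 2) = P * P.comp (-X)) {A : Multiset ℝ} {k : ℕ}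
    (hP : P.map (Int.castRingHom ℝ) = (-1) ^ k * FF A) :
    G.map (Int.castRingHom ℝ) = (-1) ^ A.card * FF (A.map fun a => a ^ 2 - 2) := by
  have h1 : ∀ A : Multiset ℝ, FF A * (FF A).comp (-X) =
      (-1) ^ A.card * (FF (A.map fun a => a ^ 2 - 2)).comp (X ^ 2 - 2) := fun A => by
    induction A using Multiset.induction_on with
    | empty => simp [FF]
    | cons a A ih =>
      simp only [Multiset.map_cons, FF_cons, Multiset.card_cons, mul_comp, sub_comp, X_comp, C_comp,
        C_sub, C_pow, pow_comp, map_ofNat, ofNat_comp, Nat.cast_ofNat]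
      linear_combination (-(X ^ 2 - C a ^ 2)) * ih
  have h2 := congrArg (Polynomial.map (Int.castRingHom ℝ)) h
  simp only [map_comp, Polynomial.map_mul, Polynomial.map_sub, Polynomial.map_pow, map_X,
    Polynomial.map_neg, Polynomial.map_ofNat, hP, mul_comp, pow_comp, neg_comp, one_comp] at h2
  have h3 : (G.map (Int.castRingHom ℝ) - (-1) ^ A.card * FF (A.map fun a => a ^ 2 - 2)).comp
      (X ^ 2 - 2) = 0 := by
    have : ((-1 : ℝ[X]) ^ k) ^ 2 = 1 := by rw [← pow_mul, mul_comm, pow_mul]; simp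
    simp only [sub_comp, mul_comp, pow_comp, neg_comp, one_comp, h2, ← h1]
    linear_combination (FF A * (FF A).comp (-X)) * this
  rcases comp_eq_zero_iff.mp h3 with h4 | ⟨-, h4⟩
  · exact sub_eq_zero.mp h4
  · have := congrArg (fun p => p.coeff 2) h4
    simp at this

lemma reflect_FF (A : Multiset ℝ) : reflect A.card (FF A) = PP A := by
  induction A using Multiset.induction_on with
  | empty => simp [FF, PP]
  | cons a A ih =>
    rw [FF_cons, PP_cons, Multiset.card_cons, add_comm, reflect_mul _ (FF A) (natDegree_X_sub_C a).le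
      (natDegree_multiset_prod_X_sub_C_eq_card A).le, reflect_sub, reflect_one_X, reflect_C,
      pow_one, ih]

lemma PP_zero (A : Multiset ℝ) : (PP A).coeff 0 = 1 := by
  induction A using Multiset.induction_on with
  | empty => simp [PP]
  | cons a A ih => simp [PP_cons, ih]

lemma hensel {a h : PowerSeries ℤ} (ha : IsUnit (PowerSeries.constantCoeff a))
    (hh : PowerSeries.constantCoeff h = 0) : ∃ w : PowerSeries ℤ, w ^ 2 = a ^ 2 + 4 * h := by
  obtain ⟨u, hu, -⟩ := HenselianRing.is_henselian (I := Ideal.span {(PowerSeries.X : PowerSeries ℤ)})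
    (X ^ 2 + (C a * X - C h)) (by monicity!) 0
    (by simpa [Ideal.mem_span_singleton, PowerSeries.X_dvd_iff] using hh)
    (by simpa using (PowerSeries.isUnit_iff_constantCoeff.mpr ha).map (Ideal.Quotient.mk _))
  refine ⟨a + 2 * u, ?_⟩
  simp only [IsRoot, eval_add, eval_sub, eval_mul, eval_pow, eval_X, eval_C] at hu
  linear_combination 4 * hu

theorem squares {P : ℤ[X]} {A : Multiset ℝ} (hP : P.map (Int.castRingHom ℝ) = FF A)
    {W : Multiset ℝ} (hW : W = (A.map fun a => a ^ 2 - 2) +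
      (A.map fun a => a ^ 2 - 2).map fun a => a ^ 2 - 2) :
    ∃ w w' : PowerSeries ℤ, PowerSeries.map (Int.castRingHom ℝ) w ^ 2 = PP W ∧
      PowerSeries.map (Int.castRingHom ℝ) w' ^ 2 = PP (2 ::ₘ -2 ::ₘ W) := by
  obtain ⟨G₁, G₂, H, h1, h2, h3⟩ := graeffe P
  have e1 := step_roots h1 (k := 0) (by rw [hP, pow_zero, one_mul])
  have e2 := step_roots h2 e1
  have r : ∀ (G : ℤ[X]) (B : Multiset ℝ), B.card = A.card →
      G.map (Int.castRingHom ℝ) = (-1) ^ A.card * FF B →
      (reflect A.card G).map (Int.castRingHom ℝ) = (-1) ^ A.card * PP B ∧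
        (reflect A.card G).coeff 0 = (-1) ^ A.card := fun G B hB h => by
    have : (reflect A.card G).map (Int.castRingHom ℝ) = C ((-1) ^ A.card) * PP B := by
      rw [← reflect_map, h, ← reflect_FF, hB, ← reflect_C_mul, C_pow, C_neg, C_1]
    refine ⟨by rw [this, C_pow, C_neg, C_1], ?_⟩
    have := congrArg (fun p => p.coeff 0) this
    simp only [coeff_map, coeff_C_mul, PP_zero, mul_one, eq_intCast] at this
    exact_mod_cast this
  rw [Multiset.card_map] at e2
  obtain ⟨a1, a2⟩ := r G₁ _ (by simp) e1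
  obtain ⟨b1, b2⟩ := r G₂ _ (by simp) e2
  have c : reflect A.card G₂ = reflect A.card G₁ + 4 * reflect A.card H := by
    rw [h3, reflect_add, show (4 : ℤ[X]) = C 4 from rfl, reflect_C_mul]
  have c0 : (reflect A.card H).coeff 0 = 0 := by
    have := congrArg (fun p => p.coeff 0) c
    simp only [coeff_add, a2, b2, show (4 : ℤ[X]) = C 4 from rfl, coeff_C_mul] at this
    omega
  generalize reflect A.card G₁ = a at *
  generalize reflect A.card H = h at *
  obtain ⟨b, y, hu, hy, key⟩ : ∃ b y : PowerSeries ℤ, IsUnit (PowerSeries.constantCoeff b) ∧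
      PowerSeries.constantCoeff y = 0 ∧
      PowerSeries.map (Int.castRingHom ℝ) (b ^ 2 + 4 * y) = PP W := by
    refine ⟨a, a * h, by rw [constantCoeff_coe, a2]; exact isUnit_one.neg.pow _, by simp [c0], ?_⟩
    have : ((-1 : ℝ[X]) ^ A.card) ^ 2 = 1 := by rw [← pow_mul, mul_comm, pow_mul]; simp
    have e : (a * (a + 4 * h)).map (Int.castRingHom ℝ) = PP W := by
      rw [Polynomial.map_mul, ← c, a1, b1, hW, PP_add]
      linear_combination (PP (A.map fun a => a ^ 2 - 2) *
        PP ((A.map fun a => a ^ 2 - 2).map fun a => a ^ 2 - 2)) * this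
    rw [← e, polynomial_map_coe, Polynomial.coe_mul, Polynomial.coe_add, Polynomial.coe_mul,
      show (4 : ℤ[X]) = C 4 from rfl, coe_C, map_ofNat]
    exact congrArg _ (by ring)
  obtain ⟨w, hw⟩ := hensel hu hy
  obtain ⟨w', hw'⟩ := hensel hu (h := y - PowerSeries.X ^ 2 * (b ^ 2 + 4 * y)) (by simp [hy])
  refine ⟨w, w', by rw [← map_pow, hw, key], ?_⟩
  rw [← map_pow, hw', show b ^ 2 + 4 * (y - PowerSeries.X ^ 2 * (b ^ 2 + 4 * y)) =
    (1 - 4 * PowerSeries.X ^ 2) * (b ^ 2 + 4 * y) by ring, map_mul, key]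
  simp only [PP_cons, Polynomial.coe_mul, Polynomial.coe_sub, Polynomial.coe_one, coe_C, coe_X]
  simp only [map_sub, map_one, map_mul, map_pow, map_ofNat, PowerSeries.map_X, map_neg]
  ring

end Pool.Agent.Lib.MP_1e748d_nt.Sz
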