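import Mathlib

set_option autoImplicit false

/-! Fekete: a small monic real polynomial gives a small monic integer polynomial. -/

namespace Pool.Agent.Lib.MP_1e748d_nt.Sz

open Finset Polynomial

variable {E : Set ℝ}

lemma basis (hE : ∀ x ∈ E, |x| ≤ 3) {q : ℝ[X]} (hq : q.Monic) (hd : 0 < q.natDegree)
    (hs : ∀ x ∈ E, |q.eval x| ≤ 1 / 2) : ∃ l A : ℝ, 0 < l ∧ l < 1 ∧ 0 < A ∧ ∀ k : ℕ, ∃ p : ℝ[X],
      p.Monic ∧ p.natDegree = k ∧ ∀ x ∈ E, |p.eval x| ≤ A * l ^ k := by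
  obtain ⟨l, l0, l1, hl⟩ : ∃ l : ℝ, 0 < l ∧ l < 1 ∧ l ^ q.natDegree = 1 / 2 :=
    ⟨_, by positivity, Real.rpow_lt_one (by norm_num) (by norm_num) (by positivity),
      Real.rpow_inv_natCast_pow (by norm_num) hd.ne'⟩
  refine ⟨l, 2 * 3 ^ q.natDegree, l0, l1, by positivity, fun k =>
    ⟨q ^ (k / q.natDegree) * X ^ (k % q.natDegree), (hq.pow _).mul (monic_X_pow _), ?_, ?_⟩⟩
  · rw [(hq.pow _).natDegree_mul (monic_X_pow _), hq.natDegree_pow, natDegree_X_pow,
      Nat.div_add_mod']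
  intro x hx
  have h1 := Nat.mod_lt k hd
  have h2 : l ^ (q.natDegree * (k / q.natDegree) + q.natDegree) ≤ l ^ k :=
    pow_le_pow_of_le_one l0.le l1.le (by have := Nat.div_add_mod k q.natDegree; omega)
  rw [pow_add, pow_mul, hl] at h2
  rw [eval_mul, eval_pow, eval_pow, eval_X, abs_mul, abs_pow, abs_pow]
  have h3 : |x| ^ (k % q.natDegree) ≤ 3 ^ q.natDegree :=
    (pow_le_pow_left₀ (abs_nonneg _) (hE x hx) _).trans (pow_le_pow_right₀ (by norm_num) h1.le)
  calc _ ≤ (1 / 2) ^ (k / q.natDegree) * 3 ^ q.natDegree :=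
        mul_le_mul (pow_le_pow_left₀ (abs_nonneg _) (hs x hx) _) h3 (by positivity) (by positivity)
    _ ≤ (2 * l ^ k) * 3 ^ q.natDegree := mul_le_mul_of_nonneg_right (by linarith) (by positivity)
    _ = _ := by ring

lemma correct {b : ℕ → ℝ} (hb : ∀ k : ℕ, ∃ p : ℝ[X], p.Monic ∧ p.natDegree = k ∧
    ∀ x ∈ E, |p.eval x| ≤ b k) (k j : ℕ) : ∀ p : ℝ[X], (∀ i, k + j ≤ i → ∃ z : ℤ, p.coeff i = z) →
      ∃ r : ℝ[X], (∀ i, k ≤ i → ∃ z : ℤ, r.coeff i = z) ∧ (∀ i, k + j ≤ i → r.coeff i = p.coeff i) ∧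
        ∀ x ∈ E, |r.eval x - p.eval x| ≤ ∑ i ∈ Ico k (k + j), b i := by
  induction j with
  | zero => exact fun p hp => ⟨p, hp, fun _ _ => rfl, by simp⟩
  | succ j ih =>
    intro p hp
    obtain ⟨u, u1, u2, u3⟩ := hb (k + j)
    have hi : ∀ i, k + (j + 1) ≤ i →
        (p - C (Int.fract (p.coeff (k + j))) * u).coeff i = p.coeff i := fun i hi => by
      rw [coeff_sub, coeff_C_mul, coeff_eq_zero_of_natDegree_lt (p := u) (by omega), mul_zero,
        sub_zero]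
    obtain ⟨r, r1, r2, r3⟩ := ih (p - C (Int.fract (p.coeff (k + j))) * u) fun i h => by
      rcases h.eq_or_lt with rfl | h
      · refine ⟨⌊p.coeff (k + j)⌋, ?_⟩
        rw [coeff_sub, coeff_C_mul, show u.coeff (k + j) = 1 from u2 ▸ u1.coeff_natDegree, mul_one,
          Int.self_sub_fract]
      · rw [hi i h]; exact hp i h
    refine ⟨r, r1, fun i h => (r2 i (by omega)).trans (hi i h), fun x hx => ?_⟩
    rw [← add_assoc, sum_Ico_succ_top (by omega)]
    have h1 := r3 x hx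
    have h2 : |Int.fract (p.coeff (k + j)) * u.eval x| ≤ b (k + j) := by
      rw [abs_mul, abs_of_nonneg (Int.fract_nonneg _)]
      exact (mul_le_of_le_one_left (abs_nonneg _) (Int.fract_lt_one _).le).trans (u3 x hx)
    rw [eval_sub, eval_mul, eval_C] at h1
    rw [abs_le] at *
    constructor <;> linarith [h1.1, h1.2, h2.1, h2.2]

theorem fekete (hE : ∀ x ∈ E, |x| ≤ 3) {q : ℝ[X]} (hq : q.Monic) (hd : 0 < q.natDegree)
    (hs : ∀ x ∈ E, |q.eval x| ≤ 1 / 2) : ∃ Q : ℤ[X], Q.Monic ∧ 0 < Q.natDegree ∧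
      ∀ x ∈ E, |(Q.map (Int.castRingHom ℝ)).eval x| ≤ 1 / 2 := by
  obtain ⟨l, A, l0, l1, A0, hb⟩ := basis hE hq hd hs
  have l2 : 0 < 1 - l := by linarith
  obtain ⟨k, hk⟩ := exists_pow_lt_of_lt_one (by positivity : 0 < (1 - l) / (8 * A)) l1
  have hR : ∀ j, ∃ r : ℝ[X], (∀ i, k ≤ i → ∃ z : ℤ, r.coeff i = z) ∧ r.coeff (k + j) = 1 ∧
      (∀ i, k + j < i → r.coeff i = 0) ∧ ∀ x ∈ E, |r.eval x| ≤ 1 / 8 := fun j => by
    obtain ⟨u, u1, u2, u3⟩ := hb (k + j)
    have u4 : u.coeff (k + j) = 1 := u2 ▸ u1.coeff_natDegree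
    have u5 : ∀ i, k + j < i → u.coeff i = 0 := fun i h =>
      coeff_eq_zero_of_natDegree_lt (by omega)
    obtain ⟨r, r1, r2, r3⟩ := correct hb k j u fun i h => by
      rcases h.eq_or_lt with rfl | h
      · exact ⟨1, by simp [u4]⟩
      · exact ⟨0, by simp [u5 i h]⟩
    refine ⟨r, r1, (r2 _ le_rfl).trans u4, fun i h => (r2 i h.le).trans (u5 i h), fun x hx => ?_⟩
    have h1 : ∑ i ∈ Ico k (k + j + 1), A * l ^ i ≤ 1 / 8 := by
      rw [← mul_sum]
      refine (mul_le_mul_of_nonneg_left (geom_sum_Ico_le_of_lt_one l0.le l1) A0.le).trans ?_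
      rw [lt_div_iff₀ (by positivity)] at hk
      rw [← mul_div_assoc, div_le_iff₀ l2]
      linarith
    rw [sum_Ico_succ_top (by omega)] at h1
    have h2 := abs_sub_abs_le_abs_sub (r.eval x) (u.eval x)
    linarith [r3 x hx, u3 x hx]
  choose r r1 r2 r3 r4 using hR
  obtain ⟨T, hT⟩ : ∃ T : ℕ, T = 4 * k * 3 ^ k + 1 := ⟨_, rfl⟩
  have T0 : (0 : ℝ) < T := by rw [hT]; positivity
  have key : ∀ a b, a < b → (∀ i < k, ⌊T * Int.fract ((r b).coeff i)⌋ =
      ⌊T * Int.fract ((r a).coeff i)⌋) → ∃ Q : ℤ[X], Q.Monic ∧ 0 < Q.natDegree ∧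
      ∀ x ∈ E, |(Q.map (Int.castRingHom ℝ)).eval x| ≤ 1 / 2 := fun a b hab h => by
    set u : ℝ[X] := ∑ i ∈ range k,
      monomial i (Int.fract ((r b).coeff i) - Int.fract ((r a).coeff i)) with hu
    have uc : ∀ i, u.coeff i =
        if i < k then Int.fract ((r b).coeff i) - Int.fract ((r a).coeff i) else 0 := fun i => by
      simp only [hu, finsetSum_coeff, coeff_monomial, sum_ite_eq', mem_range]
    have c1 : (r b - r a - u).coeff (k + b) = 1 := by
      rw [coeff_sub, coeff_sub, r2, r3 a _ (by omega), uc, if_neg (by omega)]; ring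
    have c2 : (r b - r a - u).natDegree ≤ k + b := natDegree_le_iff_coeff_eq_zero.mpr fun i hi => by
      rw [coeff_sub, coeff_sub, r3 b _ hi, r3 a _ (by omega), uc, if_neg (by omega)]; ring
    have c3 : r b - r a - u ∈ lifts (Int.castRingHom ℝ) := (lifts_iff_coeff_lifts _).mpr fun i => by
      rw [coeff_sub, coeff_sub, uc]
      split_ifs with hi
      · refine ⟨⌊(r b).coeff i⌋ - ⌊(r a).coeff i⌋, ?_⟩
        simp only [eq_intCast, Int.cast_sub, Int.fract]; ring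
      · obtain ⟨z, hz⟩ := r1 b i (by omega)
        obtain ⟨z', hz'⟩ := r1 a i (by omega)
        exact ⟨z - z', by simp [hz, hz']⟩
    obtain ⟨Q, Q1, Q2, Q3⟩ := lifts_and_natDegree_eq_and_monic c3
      (monic_of_natDegree_le_of_coeff_eq_one _ c2 c1)
    have c4 := le_natDegree_of_ne_zero (c1.trans_ne one_ne_zero)
    refine ⟨Q, Q3, by omega, fun x hx => ?_⟩
    have h1 : |u.eval x| ≤ 1 / 4 := by
      rw [hu, eval_finsetSum]
      refine (abs_sum_le_sum_abs _ _).trans ((sum_le_card_nsmul _ _ (1 / (T : ℝ) * 3 ^ k) fun i hi =>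
        ?_).trans ?_)
      · rw [eval_monomial, abs_mul, abs_pow]
        have h2 := Int.abs_sub_lt_one_of_floor_eq_floor (h i (mem_range.mp hi))
        rw [← mul_sub, abs_mul, abs_of_pos T0, ← lt_div_iff₀' T0] at h2
        exact mul_le_mul h2.le ((pow_le_pow_left₀ (abs_nonneg _) (hE x hx) _).trans
          (pow_le_pow_right₀ (by norm_num) (mem_range.mp hi).le)) (by positivity) (by positivity)
      · rw [card_range, nsmul_eq_mul, one_div_mul_eq_div, ← mul_div_assoc, div_le_iff₀ T0, hT]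
        push_cast
        linarith
    rw [Q1, eval_sub, eval_sub]
    have h2 := r4 a x hx
    have h3 := r4 b x hx
    rw [abs_le] at *
    constructor <;> linarith [h1.1, h1.2, h2.1, h2.2, h3.1, h3.2]
  obtain ⟨a, b, hab, h⟩ := Finite.exists_ne_map_eq_of_infinite
    (fun j : ℕ => fun i : Fin k => (⟨⌊T * Int.fract ((r j).coeff i)⌋, Int.floor_nonneg.mpr
      (mul_nonneg T0.le (Int.fract_nonneg _)), Int.floor_lt.mpr (by
        simpa using mul_lt_mul_of_pos_left (Int.fract_lt_one ((r j).coeff i)) T0)⟩ :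
          Set.Ico (0 : ℤ) T))
  have h' : ∀ i < k, ⌊T * Int.fract ((r a).coeff i)⌋ = ⌊T * Int.fract ((r b).coeff i)⌋ :=
    fun i hi => congrArg Subtype.val (congrFun h ⟨i, hi⟩)
  rcases lt_or_gt_of_ne hab with h1 | h1
  · exact key a b h1 fun i hi => (h' i hi).symm
  · exact key b a h1 h'

end Pool.Agent.Lib.MP_1e748d_nt.Sz
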