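import Mathlib

set_option autoImplicit false

/-! Power series whose coefficient functional is bounded in the sup norm on a set. -/

namespace Pool.Agent.Lib.MP_1e748d_nt.Sz

open Finset Polynomial

/-- The linear functional on polynomials sending `X ^ k` to the `k`-th coefficient of `g`. -/
noncomputable def Lf (g : PowerSeries ℝ) : ℝ[X] →ₗ[ℝ] ℝ :=
  (basisMonomials ℝ).constr ℝ fun k => PowerSeries.coeff k g

lemma Lf_pow (g : PowerSeries ℝ) (k : ℕ) : Lf g (X ^ k) = PowerSeries.coeff k g := by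
  have := (basisMonomials ℝ).constr_basis ℝ (fun k => PowerSeries.coeff k g) k
  rw [← monomial_one_right_eq_X_pow]
  rw [coe_basisMonomials] at this
  exact this

lemma Lf_C (g : PowerSeries ℝ) (a : ℝ) (p : ℝ[X]) : Lf g (C a * p) = a * Lf g p := by
  rw [← smul_eq_C_mul, map_smul, smul_eq_mul]

lemma lin_ext {f g : ℝ[X] →ₗ[ℝ] ℝ} (h : ∀ k, f (X ^ k) = g (X ^ k)) (p : ℝ[X]) : f p = g p := by
  have : f = g := (basisMonomials ℝ).ext fun k => by
    rw [coe_basisMonomials]; simpa only [monomial_one_right_eq_X_pow] using h k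
  rw [this]

/-- The functional of `g` is bounded in the sup norm on `E`. -/
def Bd (E : Set ℝ) (g : PowerSeries ℝ) : Prop :=
  ∃ K, 0 ≤ K ∧ ∀ (p : ℝ[X]) (B : ℝ), 0 ≤ B → (∀ x ∈ E, |p.eval x| ≤ B) → |Lf g p| ≤ K * B

lemma Bd.mul {E E₁ E₂ : Set ℝ} {g g' : PowerSeries ℝ} (h : Bd E₁ g) (h' : Bd E₂ g') (s : E₁ ⊆ E)
    (s' : E₂ ⊆ E) {η : ℝ} (η0 : 0 < η) (hη : ∀ t ∈ E₁, ∀ x ∈ E₂, η ≤ |x - t|) :
    Bd E (PowerSeries.X * (g' * g)) := by
  have key : ∀ p : ℝ[X], ∃ r : ℝ[X], Lf (PowerSeries.X * (g' * g)) p = Lf g r ∧ ∀ t, ∃ D : ℝ[X],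
      r.eval t = Lf g' D ∧ D * (X - C t) = p - C (p.eval t) := fun p => by
    induction p using Polynomial.induction_on' with
    | add p q hp hq =>
      obtain ⟨r, r1, r2⟩ := hp
      obtain ⟨u, u1, u2⟩ := hq
      refine ⟨r + u, by rw [map_add, map_add, r1, u1], fun t => ?_⟩
      obtain ⟨D, D1, D2⟩ := r2 t
      obtain ⟨F, F1, F2⟩ := u2 t
      exact ⟨D + F, by rw [eval_add, map_add, D1, F1], by
        rw [add_mul, D2, F2, eval_add, C_add]; ring⟩
    | monomial k a =>
      rw [← C_mul_X_pow_eq_monomial]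
      refine ⟨C a * ∑ i ∈ range k, C (PowerSeries.coeff i g') * X ^ (k - 1 - i), ?_, fun t =>
        ⟨C a * ∑ i ∈ range k, X ^ i * C t ^ (k - 1 - i), ?_, ?_⟩⟩
      · simp only [Lf_C, map_sum, Lf_pow]
        congr 1
        rcases k with _ | k
        · simp
        · rw [PowerSeries.coeff_succ_X_mul, PowerSeries.coeff_mul,
            Nat.sum_antidiagonal_eq_sum_range_succ_mk]
          rfl
      · simp only [Lf_C, map_sum, eval_mul, eval_C, eval_finsetSum, eval_pow, eval_X]
        refine congrArg _ (sum_congr rfl fun i _ => ?_)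
        rw [← C_pow, mul_comm (X ^ i), Lf_C, Lf_pow, mul_comm]
      · rw [mul_assoc, geom_sum₂_mul, eval_mul, eval_C, eval_pow, eval_X, C_mul, C_pow]; ring
  obtain ⟨K, K0, hK⟩ := h
  obtain ⟨K', K0', hK'⟩ := h'
  refine ⟨K * (K' * (2 / η)), by positivity, fun p B B0 hp => ?_⟩
  obtain ⟨r, r1, r2⟩ := key p
  rw [r1, mul_assoc, mul_assoc]
  refine hK r _ (by positivity) fun t ht => ?_
  obtain ⟨D, D1, D2⟩ := r2 t
  rw [D1]
  refine hK' D _ (by positivity) fun x hx => ?_
  have h1 := congrArg (fun u => |eval x u|) D2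
  simp only [eval_mul, eval_sub, eval_X, eval_C, abs_mul] at h1
  have h2 := abs_sub (p.eval x) (p.eval t)
  rw [div_mul_eq_mul_div, le_div_iff₀ η0]
  nlinarith [hp x (s' hx), hp t (s ht), hη t ht x hx, abs_nonneg (D.eval x)]

lemma slit {a b : ℝ} (hab : a < b) : ∃ g : PowerSeries ℝ,
    g ^ 2 * ((1 - C a * X : ℝ[X]) * (1 - C b * X) : ℝ[X]) = 1 ∧ Bd (Set.Icc a b) g := by
  obtain ⟨c, r, r0, rfl, rfl⟩ : ∃ c r : ℝ, 0 < r ∧ a = c - r ∧ b = c + r :=
    ⟨(a + b) / 2, (b - a) / 2, by linarith, by ring, by ring⟩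
  have hc : ∀ p : ℝ[X], Continuous fun t => p.eval (c + r * Real.cos t) := fun p => by fun_prop
  let I : ℝ[X] →ₗ[ℝ] ℝ :=
    { toFun := fun p => Real.pi⁻¹ * ∫ t in (0 : ℝ)..Real.pi, p.eval (c + r * Real.cos t)
      map_add' := fun p q => by
        simp only [eval_add]
        rw [intervalIntegral.integral_add ((hc p).intervalIntegrable _ _)
          ((hc q).intervalIntegrable _ _), mul_add]
      map_smul' := fun a p => by
        simp only [eval_smul, smul_eq_mul, intervalIntegral.integral_const_mul, RingHom.id_apply]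
        ring }
  have hI : ∀ p, I p = Real.pi⁻¹ * ∫ t in (0 : ℝ)..Real.pi, p.eval (c + r * Real.cos t) :=
    fun _ => rfl
  have hz : ∀ u : ℝ[X], I ((X - C c) * u + ((X - C c) ^ 2 - C r ^ 2) * derivative u) = 0 :=
    fun u => by
    rw [hI, intervalIntegral.integral_eq_sub_of_hasDerivAt
      (f := fun t => r * Real.sin t * u.eval (c + r * Real.cos t)) (fun t _ => ?_)
      ((hc _).intervalIntegrable _ _)]
    · simp
    refine (((Real.hasDerivAt_sin t).const_mul r).mul ((u.hasDerivAt _).comp t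
      (((Real.hasDerivAt_cos t).const_mul r).const_add c))).congr_deriv ?_
    simp only [eval_add, eval_mul, eval_sub, eval_X, eval_C, eval_pow, Function.comp]
    linear_combination (-r ^ 2 * eval (c + r * Real.cos t) (derivative u)) * Real.sin_sq_add_cos_sq t
  set g : PowerSeries ℝ := PowerSeries.mk fun k => I (X ^ k) with hg
  have h0 : I 1 = 1 := by rw [hI]; simp [Real.pi_ne_zero]
  refine ⟨g, ?_, 1, zero_le_one, fun p B _ hp => ?_⟩
  · obtain ⟨e, he⟩ : ∃ e, e = c ^ 2 - r ^ 2 := ⟨_, rfl⟩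
    have e1 : ((((1 - C (c - r) * X : ℝ[X]) * (1 - C (c + r) * X) : ℝ[X])) : PowerSeries ℝ) =
        1 - PowerSeries.C (2 * c) * PowerSeries.X + PowerSeries.C e * PowerSeries.X ^ 2 := by
      simp only [Polynomial.coe_mul, Polynomial.coe_sub, Polynomial.coe_one, coe_C, coe_X, map_sub,
        map_add, map_pow, Polynomial.coe_add, he, map_mul, map_ofNat]
      ring
    have e2 : ∀ k, PowerSeries.coeff k (PowerSeries.X * PowerSeries.derivative ℝ g) =
        k * I (X ^ k) := fun k => by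
      rcases k with _ | k
      · simp
      · rw [PowerSeries.coeff_succ_X_mul, PowerSeries.coeff_derivative, hg, PowerSeries.coeff_mk]
        push_cast; ring
    have e3 : PowerSeries.derivative ℝ g - PowerSeries.C c * g - PowerSeries.C (2 * c) *
        (PowerSeries.X * PowerSeries.derivative ℝ g) + PowerSeries.C e *
        (PowerSeries.X * (g + PowerSeries.X * PowerSeries.derivative ℝ g)) = 0 := by
      ext k
      simp only [map_add, map_sub, PowerSeries.coeff_C_mul, e2, PowerSeries.coeff_derivative,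
        map_zero]
      rcases k with _ | k
      · have := hz 1
        rw [derivative_one, mul_zero, add_zero, mul_one, ← mul_one (C c), ← smul_eq_C_mul, map_sub,
          map_smul, smul_eq_mul] at this
        simp [hg]
        simpa using this
      · have := hz (X ^ (k + 1))
        rw [derivative_X_pow_succ, show (X - C c) * X ^ (k + 1) + ((X - C c) ^ 2 - C r ^ 2) *
          (C ((k : ℝ) + 1) * X ^ k) = ((k : ℝ) + 2) • X ^ (k + 1 + 1) - (c * (2 * k + 3)) •
          X ^ (k + 1) + ((c ^ 2 - r ^ 2) * (k + 1)) • X ^ k by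
            simp only [smul_eq_C_mul, map_add, map_mul, map_sub, map_pow, map_ofNat, map_one]; ring,
          map_add, map_sub, map_smul, map_smul, map_smul] at this
        rw [PowerSeries.coeff_succ_X_mul, map_add, e2]
        simp only [hg, PowerSeries.coeff_mk, smul_eq_mul, he] at this ⊢
        push_cast
        linear_combination this
    rw [e1]
    refine PowerSeries.derivative.ext ?_ (by simp [hg, h0])
    simp only [Derivation.leibniz, Derivation.leibniz_pow, map_add, map_sub, smul_eq_mul,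
      PowerSeries.derivative_C, PowerSeries.derivative_X, Derivation.map_one_eq_zero, nsmul_eq_mul]
    simp only [map_mul, map_ofNat] at e3 ⊢
    push_cast
    linear_combination 2 * g * e3
  · rw [lin_ext (f := Lf g) (g := I) fun k => by rw [Lf_pow, hg, PowerSeries.coeff_mk], hI, abs_mul,
      abs_of_pos (inv_pos.mpr Real.pi_pos), one_mul, inv_mul_le_iff₀ Real.pi_pos, mul_comm]
    have := intervalIntegral.norm_integral_le_of_norm_le_const (a := 0) (b := Real.pi) (C := B)
      (f := fun t => p.eval (c + r * Real.cos t)) fun t _ => hp _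
        ⟨by nlinarith [Real.neg_one_le_cos t], by nlinarith [Real.cos_le_one t]⟩
    rwa [sub_zero, abs_of_pos Real.pi_pos] at this

/-- The monic polynomial with root multiset `U`. -/
noncomputable def FF (U : Multiset ℝ) : ℝ[X] := (U.map fun β => X - C β).prod

/-- The reversed polynomial of `FF U`. -/
noncomputable def PP (U : Multiset ℝ) : ℝ[X] := (U.map fun β => 1 - C β * X).prod

lemma FF_cons (a : ℝ) (U : Multiset ℝ) : FF (a ::ₘ U) = (X - C a) * FF U := by simp [FF]

lemma PP_cons (a : ℝ) (U : Multiset ℝ) : PP (a ::ₘ U) = (1 - C a * X) * PP U := by simp [PP]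

lemma FF_add (U V : Multiset ℝ) : FF (U + V) = FF U * FF V := by simp [FF]

lemma PP_add (U V : Multiset ℝ) : PP (U + V) = PP U * PP V := by simp [PP]

lemma FF_pos {U : Multiset ℝ} {x : ℝ} (h : ∀ z ∈ U, z < x) : 0 < (FF U).eval x := by
  induction U using Multiset.induction_on with
  | empty => simp [FF]
  | cons a U ih =>
    rw [FF_cons, eval_mul, eval_sub, eval_X, eval_C]
    exact mul_pos (sub_pos.mpr (h a (by simp))) (ih fun z hz => h z (by simp [hz]))

lemma peel {Z : Multiset ℝ} (h : Z.Nodup) {k : ℕ} (hk : Z.card = k + 1) :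
    ∃ a Y, Z = a ::ₘ Y ∧ Y.Nodup ∧ Y.card = k ∧ ∀ z ∈ Y, z < a := by
  obtain ⟨a, ha, hm⟩ := Multiset.exists_max_image id (s := Z) (by rintro rfl; simp at hk)
  obtain ⟨Y, rfl⟩ := Multiset.exists_cons_of_mem ha
  rw [Multiset.nodup_cons] at h
  exact ⟨a, Y, rfl, h.2, by simpa using hk, fun z hz => lt_of_le_of_ne (hm z (by simp [hz]))
    (by rintro rfl; exact h.1 hz)⟩

lemma slits (M : ℝ) (n : ℕ) : ∀ Z : Multiset ℝ, Z.Nodup → Z.card = 2 * n + 2 →
    (∀ z ∈ Z, |z| ≤ M) → ∃ H : PowerSeries ℝ, H ^ 2 * PP Z = 1 ∧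
      Bd {x | |x| ≤ M ∧ (FF Z).eval x ≤ 0} (PowerSeries.X ^ n * H) := by
  have sub : ∀ a b Y, a < b → (∀ z ∈ Y, z < a) → (∀ z ∈ b ::ₘ a ::ₘ Y, |z| ≤ M) →
      Set.Icc a b ⊆ {x | |x| ≤ M ∧ (FF (b ::ₘ a ::ₘ Y)).eval x ≤ 0} := fun a b Y hab hY hM x hx => by
    have h1 := abs_le.mp (hM a (by simp))
    have h2 := abs_le.mp (hM b (by simp))
    refine ⟨abs_le.mpr ⟨h1.1.trans hx.1, hx.2.trans h2.2⟩, ?_⟩
    simp only [FF_cons, eval_mul, eval_sub, eval_X, eval_C]
    exact mul_nonpos_of_nonpos_of_nonneg (sub_nonpos.mpr hx.2) (mul_nonneg (sub_nonneg.mpr hx.1)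
      (FF_pos fun z hz => (hY z hz).trans_le hx.1).le)
  induction n with
  | zero =>
    intro Z hZ hc hM
    obtain ⟨b, Y, rfl, h1, h2, h3⟩ := peel hZ hc
    obtain ⟨a, Y, rfl, h4, h5, h6⟩ := peel h1 h2
    have hab := h3 a (by simp)
    obtain ⟨g, g1, K, K0, hK⟩ := slit hab
    refine ⟨g, ?_, K, K0, fun p B B0 hp => ?_⟩
    · rw [← g1, Multiset.card_eq_zero.mp h5, mul_comm (1 - C a * X)]; simp [PP]
    · rw [pow_zero, one_mul]
      exact hK p B B0 fun x hx => hp x (sub a b Y hab h6 hM hx)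
  | succ n ih =>
    intro Z hZ hc hM
    obtain ⟨b, Y, rfl, h1, h2, h3⟩ := peel hZ hc
    obtain ⟨a, Y, rfl, h4, h5, h6⟩ := peel h1 h2
    have hab := h3 a (by simp)
    obtain ⟨g, g1, g2⟩ := slit hab
    obtain ⟨H, H1, H2⟩ := ih Y h4 h5 fun z hz => hM z (by simp [hz])
    obtain ⟨m, hm, hm'⟩ := Multiset.exists_max_image id (s := Y) (by rintro rfl; simp at h5)
    have hle : ∀ x, (FF Y).eval x ≤ 0 → x ≤ m := fun x hx => not_lt.mp fun h =>
      (FF_pos fun z hz => lt_of_le_of_lt (hm' z hz) h).not_ge hx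
    have hma := h6 m hm
    refine ⟨g * H, ?_, ?_⟩
    · rw [PP_cons, PP_cons, ← mul_assoc, mul_comm (1 - C b * X), Polynomial.coe_mul]
      linear_combination (H ^ 2 * PP Y) * g1 + H1
    · rw [show PowerSeries.X ^ (n + 1) * (g * H) = PowerSeries.X * (g * (PowerSeries.X ^ n * H)) by
        ring]
      refine H2.mul g2 (fun x hx => ⟨hx.1, ?_⟩) (sub a b Y hab h6 hM) (sub_pos.mpr hma)
        fun t ht x hx => ?_
      · have := hle x hx.2
        simp only [FF_cons, eval_mul, eval_sub, eval_X, eval_C, ← mul_assoc]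
        exact mul_nonpos_of_nonneg_of_nonpos (by nlinarith) hx.2
      · exact le_trans (by linarith [hle t ht.2, hx.1]) (le_abs_self _)

end Pool.Agent.Lib.MP_1e748d_nt.Sz
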