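import Pool.Agent.Lib.MP_1e748d_nt.Sz.Fek
import Pool.Agent.Lib.MP_1e748d_nt.Sz.Fun

set_option autoImplicit false

/-! An integral square root series on a slit system of small capacity is rational. -/

namespace Pool.Agent.Lib.MP_1e748d_nt.Sz

open Finset Polynomial

lemma Bd.shift {E : Set ℝ} (hE : ∀ x ∈ E, |x| ≤ 3) {G : PowerSeries ℝ} (h : Bd E G)
    (U : Multiset ℝ) :
    Bd E (PowerSeries.mk fun k => PowerSeries.coeff (k + U.card) (PP U * G)) := by
  induction U using Multiset.induction_on with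
  | empty =>
    have : (PowerSeries.mk fun k => PowerSeries.coeff (k + (0 : Multiset ℝ).card)
      ((PP 0 : PowerSeries ℝ) * G)) = G := by ext k; simp [PP]
    rwa [this]
  | cons a U ih =>
    obtain ⟨K, K0, hK⟩ := ih
    refine ⟨K * (3 + |a|), by positivity, fun p B B0 hp => ?_⟩
    rw [lin_ext (g := Lf (PowerSeries.mk fun k => PowerSeries.coeff (k + U.card) (PP U * G)) ∘ₗ
      LinearMap.mulLeft ℝ (X - C a)) fun k => ?_, mul_assoc]
    · refine hK _ _ (by positivity) fun x hx => ?_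
      rw [LinearMap.mulLeft_apply, eval_mul, eval_sub, eval_X, eval_C, abs_mul]
      exact mul_le_mul ((abs_sub _ _).trans (by linarith [hE x hx])) (hp x hx) (abs_nonneg _)
        (by positivity)
    · rw [LinearMap.comp_apply, LinearMap.mulLeft_apply, sub_mul, ← pow_succ', map_sub, Lf_C]
      simp only [Lf_pow, PowerSeries.coeff_mk, PP_cons, Multiset.card_cons, Polynomial.coe_mul,
        Polynomial.coe_sub, coe_C, coe_X, sub_mul, one_mul, mul_assoc, map_sub,
        PowerSeries.coeff_C_mul]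
      rw [← add_assoc, PowerSeries.coeff_succ_X_mul, add_right_comm k 1]

lemma Bd.rec {E : Set ℝ} (hE : ∀ x ∈ E, |x| ≤ 3) {g : PowerSeries ℝ} (h : Bd E g)
    (hi : ∀ k, ∃ z : ℤ, PowerSeries.coeff k g = z) {q : ℝ[X]} (hq : q.Monic) (hd : 0 < q.natDegree)
    (hs : ∀ x ∈ E, |q.eval x| ≤ 1 / 2) : ∃ A : ℝ[X], A.Monic ∧ ∀ p, Lf g (A * p) = 0 := by
  obtain ⟨Q, Q1, Q2, Q3⟩ := fekete hE hq hd hs
  obtain ⟨K, K0, hK⟩ := h
  have hint : ∀ p : ℤ[X], ∃ z : ℤ, Lf g (p.map (Int.castRingHom ℝ)) = z := fun p => by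
    induction p using Polynomial.induction_on' with
    | add p q hp hq =>
      obtain ⟨y, hy⟩ := hp
      obtain ⟨z, hz⟩ := hq
      exact ⟨y + z, by rw [Polynomial.map_add, map_add, hy, hz, Int.cast_add]⟩
    | monomial k a =>
      obtain ⟨z, hz⟩ := hi k
      exact ⟨a * z, by
        rw [Polynomial.map_monomial, ← C_mul_X_pow_eq_monomial, Lf_C, Lf_pow, hz, Int.cast_mul]; rfl⟩
  set R := Q.map (Int.castRingHom ℝ) with hR
  have R1 : R.Monic := Q1.map _
  have R2 : 0 < R.natDegree := by rwa [hR, Q1.natDegree_map]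
  obtain ⟨n, hn⟩ := exists_pow_lt_of_lt_one
    (by positivity : 0 < 1 / ((K + 1) * 3 ^ R.natDegree)) (by norm_num : (1 / 2 : ℝ) < 1)
  have low : ∀ i, n ≤ i → ∀ p : ℝ[X], p.natDegree < R.natDegree → Lf g (R ^ i * p) = 0 :=
    fun i hi p hp => by
    rw [p.as_sum_range_C_mul_X_pow' hp, mul_sum, map_sum]
    refine sum_eq_zero fun k hk => ?_
    obtain ⟨z, hz⟩ := hint (Q ^ i * X ^ k)
    rw [Polynomial.map_mul, Polynomial.map_pow, Polynomial.map_pow, map_X, ← hR] at hz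
    have h1 := hK (R ^ i * X ^ k) ((1 / 2) ^ n * 3 ^ R.natDegree) (by positivity) fun x hx => by
      rw [eval_mul, eval_pow, eval_pow, eval_X, abs_mul, abs_pow, abs_pow]
      exact mul_le_mul ((pow_le_pow_left₀ (abs_nonneg _) (Q3 x hx) _).trans
        (pow_le_pow_of_le_one (by norm_num) (by norm_num) hi))
        ((pow_le_pow_left₀ (abs_nonneg _) (hE x hx) _).trans
          (pow_le_pow_right₀ (by norm_num) (mem_range.mp hk).le)) (by positivity) (by positivity)
    rw [lt_div_iff₀ (by positivity)] at hn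
    have h2 : |(z : ℝ)| < 1 := by
      have : (0 : ℝ) ≤ (1 / 2) ^ n * 3 ^ R.natDegree := by positivity
      rw [← hz]; nlinarith
    rw [mul_left_comm, Lf_C, hz, Int.abs_lt_one_iff.mp (by exact_mod_cast h2 : |z| < 1)]
    simp
  have all : ∀ d, ∀ p : ℝ[X], p.natDegree < d → ∀ i, n ≤ i → Lf g (R ^ i * p) = 0 := fun d => by
    induction d with
    | zero => exact fun p hp => absurd hp (Nat.not_lt_zero _)
    | succ d ih =>
      intro p hp i hi
      rcases lt_or_ge p.natDegree R.natDegree with h | h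
      · exact low i hi p h
      rw [← modByMonic_add_div p R, mul_add, map_add, ← mul_assoc, ← pow_succ,
        low i hi _ (natDegree_modByMonic_lt p R1 (by rintro h; simp [h] at R2)),
        ih _ (by rw [natDegree_divByMonic p R1]; omega) _ (by omega), add_zero]
  exact ⟨R ^ n, R1.pow _, fun p => all _ p (Nat.lt_succ_self _) n le_rfl⟩

lemma rational {s : PowerSeries ℝ} {D : ℕ} {A : ℝ[X]} (hA : A.Monic)
    (h : ∀ p, Lf (PowerSeries.mk fun k => PowerSeries.coeff (k + D) s) (A * p) = 0) :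
    ∃ A' B : ℝ[X], A' ≠ 0 ∧ (A' : PowerSeries ℝ) * s = B := by
  set N := A.natDegree with hN
  refine ⟨∑ i ∈ range (N + 1), C (A.coeff i) * X ^ (N - i), PowerSeries.trunc (D + N)
    ((∑ i ∈ range (N + 1), C (A.coeff i) * X ^ (N - i) : ℝ[X]) * s), fun h0 => ?_, ?_⟩
  · have := congrArg (eval 0) h0
    rw [eval_finsetSum, sum_range_succ, sum_eq_zero fun i hi => by
      simp [Nat.sub_ne_zero_of_lt (mem_range.mp hi)]] at this
    simp [hN, hA.coeff_natDegree] at this
  ext k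
  rw [coeff_coe, PowerSeries.coeff_trunc]
  split_ifs with hk
  · rfl
  obtain ⟨k, rfl⟩ := Nat.exists_eq_add_of_le (not_lt.mp hk)
  rw [← h (X ^ k)]
  conv_rhs => rw [A.as_sum_range_C_mul_X_pow, sum_mul, map_sum]
  rw [← coeToPowerSeries.ringHom_apply, map_sum, sum_mul, map_sum]
  refine sum_congr rfl fun i hi => ?_
  have := mem_range.mp hi
  rw [coeToPowerSeries.ringHom_apply, Polynomial.coe_mul, coe_C, Polynomial.coe_pow, coe_X,
    mul_assoc, mul_assoc, PowerSeries.coeff_C_mul, Lf_C, ← pow_add, Lf_pow, PowerSeries.coeff_mk,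
    show D + N + k = i + k + D + (N - i) by omega, PowerSeries.coeff_X_pow_mul]

lemma split2 (W : Multiset ℝ) : ∃ V Z : Multiset ℝ, Z.Nodup ∧ W = V + V + Z := by
  induction W using Multiset.induction_on with
  | empty => exact ⟨0, 0, by simp, by simp⟩
  | cons a W ih =>
    obtain ⟨V, Z, h, rfl⟩ := ih
    by_cases ha : a ∈ Z
    · obtain ⟨Y, rfl⟩ := Multiset.exists_cons_of_mem ha
      exact ⟨a ::ₘ V, Y, h.of_cons, by simp only [← Multiset.singleton_add]; abel⟩
    · exact ⟨V, a ::ₘ Z, Multiset.nodup_cons.mpr ⟨ha, h⟩, by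
        simp only [← Multiset.singleton_add]; abel⟩

lemma PP_eval {U : Multiset ℝ} {x : ℝ} (h : ∀ z ∈ U, z * x ≠ 1) : (PP U).eval x ≠ 0 := by
  induction U using Multiset.induction_on with
  | empty => simp [PP]
  | cons a U ih =>
    rw [PP_cons, eval_mul, eval_sub, eval_one, eval_mul, eval_X, eval_C]
    exact mul_ne_zero (sub_ne_zero.mpr (h a (by simp)).symm) (ih fun z hz => h z (by simp [hz]))

theorem even_count {W : Multiset ℝ} (hc : Even W.card) {M : ℝ} (hM : M ≤ 3) (hW : ∀ β ∈ W, |β| ≤ M)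
    (w : PowerSeries ℤ) (hw : PowerSeries.map (Int.castRingHom ℝ) w ^ 2 = PP W) {q : ℝ[X]}
    (hq : q.Monic) (hd : 0 < q.natDegree)
    (hs : ∀ x, |x| ≤ M → (FF W).eval x ≤ 0 → |q.eval x| ≤ 1 / 2) (β : ℝ) : Even (W.count β) := by
  obtain ⟨V, Z, hZ, rfl⟩ := split2 W
  rcases eq_or_ne Z 0 with rfl | h0
  · exact ⟨V.count β, by simp⟩
  exfalso
  obtain ⟨n, hn⟩ : ∃ n, Z.card = 2 * n + 2 := by
    obtain ⟨k, hk⟩ := hc
    have := Multiset.card_pos.mpr h0
    simp only [Multiset.card_add] at hk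
    exact ⟨k - V.card - 1, by omega⟩
  obtain ⟨H, H1, H2⟩ := slits M n Z hZ hn fun z hz => hW z (by simp [hz])
  have hE : ∀ x ∈ {x | |x| ≤ M ∧ (FF Z).eval x ≤ 0}, |x| ≤ 3 := fun x hx => hx.1.trans hM
  have e1 : ((PP (V + Z) : PowerSeries ℝ) * H) ^ 2 = PP (V + V + Z) := by
    simp only [PP_add, Polynomial.coe_mul]
    linear_combination ((PP V : PowerSeries ℝ) ^ 2 * PP Z) * H1
  obtain ⟨v, hv⟩ : ∃ v : PowerSeries ℤ, PP (V + Z) * H = PowerSeries.map (Int.castRingHom ℝ) v := by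
    rcases sq_eq_sq_iff_eq_or_eq_neg.mp (e1.trans hw.symm) with h | h
    exacts [⟨w, h⟩, ⟨-w, by rw [h, map_neg]⟩]
  obtain ⟨A, A1, A2⟩ := (H2.shift hE (V + Z)).rec hE (fun k => ⟨PowerSeries.coeff
    (k + (V + Z).card) (PowerSeries.X ^ n * v), by
      rw [PowerSeries.coeff_mk, mul_left_comm, hv, ← eq_intCast (Int.castRingHom ℝ),
        ← PowerSeries.coeff_map, map_mul (PowerSeries.map _), map_pow (PowerSeries.map _),
        PowerSeries.map_X]⟩) hq hd fun x hx =>
      hs x hx.1 (by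
        simp only [FF_add, eval_mul]
        exact mul_nonpos_of_nonneg_of_nonpos (mul_self_nonneg _) hx.2)
  obtain ⟨A', B, A3, A4⟩ := rational A1 A2
  obtain ⟨z, hz, z0⟩ : ∃ z ∈ Z, z ≠ 0 := by
    obtain ⟨b, Y, rfl, h1, h2, h3⟩ := peel hZ hn
    obtain ⟨a, Y, rfl, -⟩ := peel h1 h2
    rcases eq_or_ne a 0 with rfl | h
    exacts [⟨b, by simp, (h3 0 (by simp)).ne'⟩, ⟨a, by simp, h⟩]
  obtain ⟨U, rfl⟩ := Multiset.exists_cons_of_mem hz
  have e2 : (A' * X ^ n * PP V) * (A' * X ^ n * PP V) * ((X - C z⁻¹) * (C (-z) * PP U)) = B * B := by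
    have e3 : (X - C z⁻¹) * (C (-z) * PP U) = PP (z ::ₘ U) := by
      have : C z⁻¹ * C z = 1 := by rw [← C_mul, inv_mul_cancel₀ z0, C_1]
      rw [PP_cons, C_neg]; linear_combination PP U * this
    rw [e3]
    apply Polynomial.coe_injective
    simp only [Polynomial.coe_mul, ← A4, PP_add, Polynomial.coe_pow, coe_X]
    linear_combination (-((A' : PowerSeries ℝ) * PowerSeries.X ^ n * (PP V : PowerSeries ℝ)) ^ 2 *
      (PP (z ::ₘ U) : PowerSeries ℝ)) * H1
  have e4 : (C (-z) * PP U).eval z⁻¹ ≠ 0 := by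
    rw [eval_mul, eval_C]
    refine mul_ne_zero (neg_ne_zero.mpr z0) (PP_eval fun y hy h => ?_)
    rw [mul_inv_eq_one₀ z0] at h
    exact (Multiset.nodup_cons.mp hZ).1 (h ▸ hy)
  have e5 : C (-z) * PP U ≠ 0 := fun h => e4 (by rw [h, eval_zero])
  have e6 : A' * X ^ n * PP V ≠ 0 := mul_ne_zero (mul_ne_zero A3 (pow_ne_zero _ X_ne_zero))
    fun h => PP_eval (U := V) (x := 0) (by simp) (by simp [h])
  have e7 := mul_ne_zero (X_sub_C_ne_zero z⁻¹) e5
  have e8 := mul_ne_zero (mul_ne_zero e6 e6) e7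
  have e9 := congrArg (rootMultiplicity z⁻¹) e2
  rw [rootMultiplicity_mul e8, rootMultiplicity_mul (mul_ne_zero e6 e6), rootMultiplicity_mul e7,
    rootMultiplicity_mul (p := B) (q := B) (e2 ▸ e8), rootMultiplicity_X_sub_C_self,
    rootMultiplicity_eq_zero (p := C (-z) * PP U) e4] at e9
  omega

end Pool.Agent.Lib.MP_1e748d_nt.Sz
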