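import Pool.Agent.Lib.MP_1e748d_nt.Sz.Cap
import Pool.Agent.Lib.MP_1e748d_nt.Sz.Root
import Pool.Agent.Lib.MP_1e748d_nt.Sz.Cong

set_option autoImplicit false

/-! A totally real algebraic integer of degree `d` has house at most `2` or above `2 + κ / d`. -/

namespace Pool.Agent.Lib.MP_1e748d_nt.Sz

open Polynomial

lemma FF_shift (A : Multiset ℝ) (c : ℝ) : (FF A).comp (X + C c) = FF (A.map fun a => a - c) := by
  induction A using Multiset.induction_on with
  | empty => simp [FF]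
  | cons a A ih =>
    rw [Multiset.map_cons, FF_cons, FF_cons, mul_comp, ih, sub_comp, X_comp, C_comp, C_sub]; ring

lemma top {R : ℤ[X]} {β : ℝ} {B : Multiset ℝ} (hR : R.map (Int.castRingHom ℝ) = FF (β ::ₘ B))
    (hB : ∀ b ∈ B, -2 ≤ b ∧ b < β) (h2 : 2 < β) {d : ℕ} (hd : B.card + 1 ≤ d)
    (hβ : β ≤ 2 + 5 / (10 ^ 10 * d)) : False := by
  have d1 : (1 : ℝ) ≤ d := by exact_mod_cast (by omega : 1 ≤ d)
  obtain ⟨e, he⟩ : ∃ e : ℝ, e = 1 / (10 ^ 10 * d) := ⟨_, rfl⟩
  have e0 : 0 < e := by rw [he]; positivity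
  have e1 : e ≤ 1 / 10 ^ 10 := by
    rw [he]; exact one_div_le_one_div_of_le (by positivity) (by linarith)
  have b1 : β ≤ 2 + 5 * e := by rw [he, mul_one_div]; exact hβ
  obtain ⟨γ, hγ⟩ : ∃ γ, γ = β ^ 2 - 2 := ⟨_, rfl⟩
  obtain ⟨δ, hδ⟩ : ∃ δ, δ = γ ^ 2 - 2 := ⟨_, rfl⟩
  have g1 : 2 < γ := by nlinarith
  have g2 : γ ≤ 2 + 25 * e := by nlinarith
  have g3 : γ < δ := by nlinarith
  have g4 : δ ≤ 2 + 125 * e := by nlinarith
  obtain ⟨U, hU⟩ : ∃ U, U = γ ::ₘ (B.map fun a => a ^ 2 - 2) +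
    (B.map fun a => a ^ 2 - 2).map fun a => a ^ 2 - 2 := ⟨_, rfl⟩
  have hU' : ∀ u ∈ U, -2 ≤ u ∧ u < δ := fun u hu => by
    simp only [hU, Multiset.mem_add, Multiset.mem_cons, Multiset.mem_map] at hu
    rcases hu with (rfl | ⟨b, hb, rfl⟩) | ⟨_, ⟨b, hb, rfl⟩, rfl⟩
    · exact ⟨by linarith, g3⟩
    · exact ⟨by nlinarith, by nlinarith [hB b hb]⟩
    · have h3 : b ^ 2 - 2 < γ := by nlinarith [hB b hb]
      exact ⟨by nlinarith, by nlinarith [sq_nonneg b]⟩
  have hc : U.card = 2 * B.card + 1 := by simp [hU]; omega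
  obtain ⟨w, w', hw, hw'⟩ := squares hR (W := δ ::ₘ U) (by
    simp only [hU, hδ, hγ, Multiset.map_cons, Multiset.add_cons])
  have hW : ∀ u ∈ 2 ::ₘ -2 ::ₘ δ ::ₘ U, |u| ≤ 2 * (1 + 125 / 2 * e) := fun u hu => by
    simp only [Multiset.mem_cons] at hu
    rw [abs_le]
    rcases hu with rfl | rfl | rfl | hu
    · constructor <;> linarith
    · constructor <;> linarith
    · constructor <;> linarith
    · constructor <;> linarith [hU' u hu]
  have hn : δ ∉ U := fun h => (hU' δ h).2.false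
  obtain ⟨q, q1, q2, h | h⟩ := small (m := 4 * d) (ρ := 1 + 125 / 2 * e) (by linarith) (by
    push_cast
    rw [he, mul_one_div, add_le_add_iff_left, div_le_div_iff₀ (by positivity) (by positivity)]
    linarith) (FF (δ ::ₘ U)) (monic_multisetProd_X_sub_C _).ne_zero (by
      rw [FF, natDegree_multiset_prod_X_sub_C_eq_card, Multiset.card_cons]; omega)
  · have := even_count (W := δ ::ₘ U) ⟨B.card + 1, by rw [Multiset.card_cons]; omega⟩ (by linarith)
      (fun u hu => hW u (by simp only [Multiset.mem_cons] at hu ⊢; tauto)) w hw q1 q2 h δ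
    simp [Multiset.count_eq_zero.mpr hn] at this
  · have := even_count (W := 2 ::ₘ -2 ::ₘ δ ::ₘ U)
      ⟨B.card + 2, by simp only [Multiset.card_cons]; omega⟩ (by linarith) hW w' hw' q1 q2
      (fun x hx hx' => h x hx (by
        simp only [FF_cons (2 : ℝ), FF_cons (-2 : ℝ), eval_mul, eval_sub, eval_X, eval_C,
          eval_pow] at hx' ⊢
        linarith)) δ
    rw [Multiset.count_cons_of_ne (by linarith), Multiset.count_cons_of_ne (by linarith)] at this
    simp [Multiset.count_eq_zero.mpr hn] at this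

theorem core {P : ℤ[X]} {A : Multiset ℝ} (hP : P.map (Int.castRingHom ℝ) = FF A)
    (hA : ∀ a ∈ A, |a| ≤ 2 + 1 / (10 ^ 10 * A.card)) : ∀ a ∈ A, |a| ≤ 2 := by
  intro a ha
  by_contra h
  obtain ⟨α, hα, hm⟩ := Multiset.exists_max_image (fun x : ℝ => |x|) (s := A)
    (by rintro rfl; simp at ha)
  have a1 : 2 < |α| := (not_le.mp h).trans_le (hm a ha)
  obtain ⟨G, -, -, h1, -⟩ := graeffe P
  have e1 : ((-1) ^ A.card * G).map (Int.castRingHom ℝ) = FF (A.map fun a => a ^ 2 - 2) := by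
    rw [Polynomial.map_mul, step_roots h1 (k := 0) (by rw [hP, pow_zero, one_mul]), ← mul_assoc,
      Polynomial.map_pow, Polynomial.map_neg, Polynomial.map_one, ← mul_pow]
    simp
  generalize (-1) ^ A.card * G = K at e1
  have m1 : (FF (A.map fun a => a ^ 2 - 2)).Monic := monic_multisetProd_X_sub_C _
  have r1 : (FF (A.map fun a => a ^ 2 - 2)).roots = _ := roots_multiset_prod_X_sub_C _
  have k1 : aeval (α ^ 2 - 2) K = 0 := by
    rw [aeval_def, eval₂_eq_eval_map, algebraMap_int_eq, e1, ← IsRoot.def, ← mem_roots m1.ne_zero,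
      r1]
    exact Multiset.mem_map_of_mem _ hα
  have hi : IsIntegral ℤ (α ^ 2 - 2) :=
    ⟨K, monic_of_injective (RingHom.injective_int _) (e1 ▸ m1), k1⟩
  have hdv := Polynomial.map_dvd (Int.castRingHom ℝ) (minpoly.isIntegrallyClosed_dvd hi k1)
  rw [e1] at hdv
  set R := minpoly ℤ (α ^ 2 - 2) with hR
  have m2 : (R.map (Int.castRingHom ℝ)).Monic := (minpoly.monic hi).map _
  have sp : (R.map (Int.castRingHom ℝ)).Splits := Splits.of_dvd (splits_iff_card_roots.mpr (by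
    rw [r1, FF, natDegree_multiset_prod_X_sub_C_eq_card])) m1.ne_zero hdv
  have nd : (R.map (Int.castRingHom ℝ)).roots.Nodup := by
    have := (minpoly.irreducible (hi.tower_top (A := ℚ))).separable.map (f := algebraMap ℚ ℝ)
    rw [minpoly.isIntegrallyClosed_eq_field_fractions' ℚ hi, Polynomial.map_map,
      RingHom.eq_intCast' (RingHom.comp _ _)] at this
    exact nodup_roots this
  have le := roots.le_of_dvd m1.ne_zero hdv
  rw [r1] at le
  obtain ⟨B, hB⟩ := Multiset.exists_cons_of_mem (s := (R.map (Int.castRingHom ℝ)).roots)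
    (a := α ^ 2 - 2) ((mem_roots m2.ne_zero).mpr (by
      rw [IsRoot.def, ← algebraMap_int_eq, eval_map_algebraMap]; exact minpoly.aeval _ _))
  have e2 := sp.eq_prod_roots_of_monic m2
  rw [hB] at e2 nd le
  have c1 := Multiset.card_le_card le
  rw [Multiset.card_cons, Multiset.card_map] at c1
  have d1 : (1 : ℝ) ≤ A.card := by exact_mod_cast (by omega : 1 ≤ A.card)
  refine top e2 (fun b hb => ?_) (by nlinarith [sq_abs α]) c1 ?_
  · obtain ⟨y, hy, rfl⟩ := Multiset.mem_map.mp (Multiset.subset_of_le le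
      (Multiset.mem_cons_of_mem hb))
    refine ⟨by nlinarith, lt_of_le_of_ne (by nlinarith [sq_le_sq.mpr (hm y hy)]) fun h => ?_⟩
    exact (Multiset.nodup_cons.mp nd).1 (h ▸ hb)
  · have h1 := hA α hα
    have h2 : 1 / (10 ^ 10 * (A.card : ℝ)) ≤ 1 := by
      rw [div_le_one (by positivity)]; linarith
    rw [← mul_one_div, ← sq_abs]
    nlinarith [abs_nonneg α]

end Pool.Agent.Lib.MP_1e748d_nt.Sz
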